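import Mathlib

/-!
# DJC: counting in finite group actions, and Bonferroni's inequality with three terms
-/

set_option autoImplicit false

open Finset

namespace Pool.Agent.DJC

section act

variable {G Ω : Type*} [Group G] [Fintype G] [MulAction G Ω] [DecidableEq Ω]

/-- The number of group elements which carry `s` to `t`. -/
def nn (s t : Ω) : ℕ := #{g : G | g • s = t}

lemma nn_eq {O : Finset Ω} (hO : ∀ s ∈ O, ∀ t ∈ O, ∃ g : G, g • s = t) (s : Ω) {t t' : Ω}
    (ht : t ∈ O) (ht' : t' ∈ O) : nn (G := G) s t = nn (G := G) s t' := by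
  obtain ⟨h, hh⟩ := hO t ht t' ht'
  unfold nn
  refine Finset.card_bij (fun g _ => h * g) ?_ ?_ ?_
  · intro g hg
    simp only [mem_filter, mem_univ, true_and] at hg ⊢
    rw [mul_smul, hg, hh]
  · intro a _ b _ hab
    exact mul_left_cancel hab
  · intro b hb
    simp only [mem_filter, mem_univ, true_and] at hb
    refine ⟨h⁻¹ * b, ?_, by group⟩
    simp only [mem_filter, mem_univ, true_and]
    rw [mul_smul, hb, ← hh, inv_smul_smul]

lemma nn_sum (s : Ω) (O : Finset Ω) : ∑ t ∈ O, nn (G := G) s t = #{g : G | g • s ∈ O} := by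
  classical
  unfold nn
  rw [← Finset.card_biUnion]
  · congr 1
    ext g
    simp
  · intro a _ b _ hab
    rw [Function.onFun, Finset.disjoint_left]
    intro g hg hg'
    simp only [mem_filter, mem_univ, true_and] at hg hg'
    exact hab (hg.symm.trans hg')

lemma nn_mul {O : Finset Ω} (hO : ∀ s ∈ O, ∀ t ∈ O, ∃ g : G, g • s = t) {s t : Ω}
    (ht : t ∈ O) : nn (G := G) s t * #O = #{g : G | g • s ∈ O} := by
  rw [← nn_sum, Finset.sum_congr rfl (fun t' ht' => nn_eq (G := G) hO s ht' ht),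
    Finset.sum_const, smul_eq_mul, mul_comm]

/-- The number of pairs `(g, s)` with `s` and `g • s` in `T`. -/
lemma sum_filter_eq (T : Finset Ω) :
    ∑ g : G, #{s ∈ T | g • s ∈ T} = ∑ s ∈ T, ∑ t ∈ T, nn (G := G) s t := by
  simp_rw [nn_sum]
  simp only [Finset.card_filter]
  rw [Finset.sum_comm]

/-- In an orbit, at most the mean. -/
lemma sum_le (O T : Finset Ω) (hO : ∀ s ∈ O, ∀ t ∈ O, ∃ g : G, g • s = t) (hT : T ⊆ O) :
    (∑ g : G, #{s ∈ T | g • s ∈ T}) * #O ≤ #T ^ 2 * Fintype.card G := by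
  rw [sum_filter_eq, Finset.sum_mul]
  have h : ∀ s ∈ T, (∑ t ∈ T, nn (G := G) s t) * #O ≤ #T * Fintype.card G := by
    intro s hs
    rw [Finset.sum_mul]
    have h2 : ∀ t ∈ T, nn (G := G) s t * #O ≤ Fintype.card G := by
      intro t ht
      rw [nn_mul (G := G) hO (hT ht)]
      exact Finset.card_le_univ _
    calc ∑ t ∈ T, nn (G := G) s t * #O ≤ ∑ _t ∈ T, Fintype.card G := Finset.sum_le_sum h2
      _ = #T * Fintype.card G := by rw [Finset.sum_const, smul_eq_mul]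
  calc ∑ s ∈ T, (∑ t ∈ T, nn (G := G) s t) * #O ≤ ∑ _s ∈ T, #T * Fintype.card G :=
        Finset.sum_le_sum h
    _ = #T ^ 2 * Fintype.card G := by
        rw [Finset.sum_const, smul_eq_mul]
        ring

/-- In an orbit, exactly the mean. -/
lemma sum_eq (O T : Finset Ω) (hO : ∀ s ∈ O, ∀ t ∈ O, ∃ g : G, g • s = t) (hT : T ⊆ O)
    (hinv : ∀ g : G, ∀ s ∈ O, g • s ∈ O) :
    (∑ g : G, #{s ∈ T | g • s ∈ T}) * #O = #T ^ 2 * Fintype.card G := by
  rw [sum_filter_eq, Finset.sum_mul]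
  have h : ∀ s ∈ T, (∑ t ∈ T, nn (G := G) s t) * #O = #T * Fintype.card G := by
    intro s hs
    rw [Finset.sum_mul]
    have h2 : ∀ t ∈ T, nn (G := G) s t * #O = Fintype.card G := by
      intro t ht
      rw [nn_mul (G := G) hO (hT ht), Finset.filter_true_of_mem (fun g _ => hinv g s (hT hs)),
        Finset.card_univ]
    rw [Finset.sum_congr rfl h2, Finset.sum_const, smul_eq_mul]
  rw [Finset.sum_congr rfl h, Finset.sum_const, smul_eq_mul]
  ring

end act

section bon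

/-- Bonferroni: `6 · 1_{X = 0} ≥ 6 - 6 X + 3 X (X - 1) - X (X - 1) (X - 2)`. -/
lemma bonferroni_int (X : ℕ) :
    (6 : ℤ) - 6 * X + 3 * (X * (X - 1)) - X * (X - 1) * (X - 2) ≤ if X = 0 then 6 else 0 := by
  split_ifs with h
  · subst h
    simp
  · have h1 : (1 : ℤ) ≤ X := by
      have : 1 ≤ X := Nat.one_le_iff_ne_zero.2 h
      exact_mod_cast this
    obtain h2 | h2 | h2 : X = 1 ∨ X = 2 ∨ 3 ≤ X := by omega
    · subst h2
      norm_num
    · subst h2
      norm_num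
    · have h3 : (3 : ℤ) ≤ X := by exact_mod_cast h2
      have h4 : (0 : ℤ) ≤ (X - 1) * (X - 2) * (X - 3) :=
        mul_nonneg (mul_nonneg (by linarith) (by linarith)) (by linarith)
      nlinarith [h4]

/-- The ordered triples of distinct elements of a finite set. -/
def trip {Ω : Type*} [DecidableEq Ω] (Y : Finset Ω) : Finset (Ω × Ω × Ω) :=
  {t ∈ Y ×ˢ Y ×ˢ Y | t.1 ≠ t.2.1 ∧ t.1 ≠ t.2.2 ∧ t.2.1 ≠ t.2.2}

lemma mem_trip {Ω : Type*} [DecidableEq Ω] {Y : Finset Ω} {t : Ω × Ω × Ω} :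
    t ∈ trip Y ↔ (t.1 ∈ Y ∧ t.2.1 ∈ Y ∧ t.2.2 ∈ Y) ∧
      t.1 ≠ t.2.1 ∧ t.1 ≠ t.2.2 ∧ t.2.1 ≠ t.2.2 := by
  simp [trip]

lemma card_trip {Ω : Type*} [DecidableEq Ω] (Y : Finset Ω) :
    (#(trip Y) : ℤ) = #Y * (#Y - 1) * (#Y - 2) := by
  have h : trip Y = Y.offDiag.biUnion
      (fun p => ((Y.erase p.1).erase p.2).image (fun z => (p.1, p.2, z))) := by
    ext ⟨a, b, c⟩
    simp only [mem_trip, mem_biUnion, mem_offDiag, mem_image, mem_erase, Prod.exists,
      Prod.mk.injEq]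
    constructor
    · rintro ⟨⟨ha, hb, hc⟩, h1, h2, h3⟩
      exact ⟨a, b, ⟨ha, hb, h1⟩, c, ⟨h3.symm, h2.symm, hc⟩, rfl, rfl, rfl⟩
    · rintro ⟨a', b', ⟨ha, hb, h1⟩, c', ⟨h3, h2, hc⟩, rfl, rfl, rfl⟩
      exact ⟨⟨ha, hb, hc⟩, h1, h2.symm, h3.symm⟩
  rw [h, Finset.card_biUnion]
  · have h2 : ∀ p ∈ Y.offDiag, #(((Y.erase p.1).erase p.2).image
        (fun z => (p.1, p.2, z))) = #Y - 1 - 1 := by
      rintro ⟨a, b⟩ hp
      rw [mem_offDiag] at hp
      rw [Finset.card_image_of_injective _ (by intro x y hxy; simpa using hxy),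
        Finset.card_erase_of_mem (mem_erase.2 ⟨hp.2.2.symm, hp.2.1⟩),
        Finset.card_erase_of_mem hp.1]
    rw [Finset.sum_congr rfl h2, Finset.sum_const, Finset.offDiag_card, smul_eq_mul]
    rcases Nat.lt_or_ge #Y 2 with h3 | h3
    · interval_cases hY : #Y <;> simp
    · have e1 : #Y ≤ #Y * #Y := Nat.le_mul_self _
      rw [Nat.cast_mul, Nat.cast_sub e1, Nat.cast_sub (by omega), Nat.cast_sub (by omega)]
      push_cast
      ring
  · rintro ⟨a, b⟩ _ ⟨a', b'⟩ _ hne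
    rw [Function.onFun, Finset.disjoint_left]
    rintro ⟨x, y, z⟩ hx hy
    simp only [mem_image, mem_erase, Prod.mk.injEq] at hx hy
    obtain ⟨_, _, rfl, rfl, _⟩ := hx
    obtain ⟨_, _, rfl, rfl, _⟩ := hy
    exact hne rfl

end bon

end Pool.Agent.DJC
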