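import Mathlib

/-!
# DJC: the numerical inequality
-/

set_option autoImplicit false

namespace Pool.Agent.DJC

/-- The polynomial inequality behind `L(r) ≥ (r - 5) / (3 r)` for `r ≥ 7`. -/
theorem num_ineq (r q k b N C : ℝ) (hr : 7 ≤ r) (hq : q = r ^ 3) (hk : k = r ^ 2 + r + 1)
    (hb : b = q + k) (hN : N = q ^ 2 + q + 1)
    (hC : C = (q * (q - 1) + 2 * q * k) * (r - 1) + k * (k - 1) * (k - 2)) :
    2 * N * (N - 1) * q ^ 2 * (q - 1) * (r - 5) ≤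
      6 * N * (N - 1) * q ^ 2 * (q - 1) * r - 6 * (N - 1) * q ^ 2 * (q - 1) * r * b ^ 2 +
        3 * q ^ 2 * (q - 1) * r * (b * (b - 1)) ^ 2 - (q - 1) * r * (b * (b - 1) * (b - 2)) ^ 2 -
        q ^ 2 * r * C ^ 2 := by
  obtain ⟨t, ht, rfl⟩ : ∃ t : ℝ, 0 ≤ t ∧ r = t + 7 := ⟨r - 7, by linarith, by ring⟩
  subst hq hk hb hN hC
  rw [← sub_nonneg]
  ring_nf
  positivity

end Pool.Agent.DJC
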