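import Pool.Agent.DJC.St
import Pool.Agent.DJC.Cnt
import Pool.Agent.DJC.Num

/-!
# DJC: the proportion of projectivities which move `B` off itself
-/

set_option autoImplicit false

open scoped LinearAlgebra.Projectivization MatrixGroups
open Finset

namespace Pool.Agent.DJC

section

variable {F : Type} [Field F] [Finite F]

instance finite_PGL : Finite (PGL(3, F)) :=
  Finite.of_surjective _ Matrix.ProjGenLinGroup.mk_surjective

theorem isCol_smul (hInv : St_Inv) (g : PGL(3, F)) {P Q R : ℙ F (Fin 3 → F)} (h : IsCol P Q R) :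
    IsCol (g • P) (g • Q) (g • R) := by
  obtain ⟨h1, h2, h3, h4⟩ := h
  refine ⟨fun e => h1 (smul_left_cancel g e), fun e => h2 (smul_left_cancel g e),
    fun e => h3 (smul_left_cancel g e), fun h5 => h4 ?_⟩
  have h6 := hInv F g⁻¹ _ _ _ h5
  rw [inv_smul_smul, inv_smul_smul, inv_smul_smul] at h6
  exact h6

theorem isTri_ne {P Q R : ℙ F (Fin 3 → F)} (h : IsTri P Q R) : P ≠ Q ∧ P ≠ R ∧ Q ≠ R := by
  rw [IsTri, Projectivization.independent_iff] at h
  refine ⟨?_, ?_, ?_⟩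
  · rintro rfl
    have := h.injective.ne (show (0 : Fin 3) ≠ 1 by decide)
    simp at this
  · rintro rfl
    have := h.injective.ne (show (0 : Fin 3) ≠ 2 by decide)
    simp at this
  · rintro rfl
    have := h.injective.ne (show (1 : Fin 3) ≠ 2 by decide)
    simp at this

end

theorem aux1 (S o N q T tt G : ℕ) (h1 : N * (N - 1) * q ^ 2 ≤ o) (hN : 1 ≤ N)
    (h2 : S * o ≤ T ^ 2 * G) (h3 : T ≤ tt) :
    (S : ℤ) * (N * (N - 1) * q ^ 2) ≤ (tt : ℤ) ^ 2 * G := by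
  have e : ((N * (N - 1) * q ^ 2 : ℕ) : ℤ) = N * (N - 1) * q ^ 2 := by
    rw [Nat.cast_mul, Nat.cast_mul, Nat.cast_sub hN]
    push_cast
    ring
  rw [← e]
  have h : S * (N * (N - 1) * q ^ 2) ≤ tt ^ 2 * G :=
    (Nat.mul_le_mul_left _ h1).trans (h2.trans (Nat.mul_le_mul_right _ (Nat.pow_le_pow_left h3 2)))
  exact_mod_cast h

theorem aux2 (S o N q T G : ℕ) (h1 : N * (N - 1) * (q - 1) ≤ o) (hN : 1 ≤ N) (hq : 1 ≤ q)
    (h2 : S * o ≤ T ^ 2 * G) : (S : ℤ) * (N * (N - 1) * (q - 1)) ≤ (T : ℤ) ^ 2 * G := by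
  have e : ((N * (N - 1) * (q - 1) : ℕ) : ℤ) = N * (N - 1) * (q - 1) := by
    rw [Nat.cast_mul, Nat.cast_mul, Nat.cast_sub hN, Nat.cast_sub hq]
    push_cast
    ring
  rw [← e]
  have h : S * (N * (N - 1) * (q - 1)) ≤ T ^ 2 * G := (Nat.mul_le_mul_left _ h1).trans h2
  exact_mod_cast h

open Classical in
/-- The first moments. -/
theorem moments (hTri : St_Tri) (hInv : St_Inv) (hCol : St_Col) (hPair : St_Pair) (hCnt : St_Cnt)
    {F : Type} [Field F] [Fintype F] [Fintype (ℙ F (Fin 3 → F))] [Fintype (PGL(3, F))]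
    (q N : ℕ) (hq : Nat.card F = q) (hN : N = q ^ 2 + q + 1) (B : Finset (ℙ F (Fin 3 → F)))
    (X : PGL(3, F) → ℕ) (hX : ∀ g, X g = #{P ∈ B | g • P ∈ B}) :
    ((∑ g, (X g : ℤ)) * N = #B ^ 2 * Fintype.card (PGL(3, F))) ∧
    ((∑ g, (X g : ℤ) * (X g - 1)) * (N * (N - 1)) =
      (#B * (#B - 1)) ^ 2 * Fintype.card (PGL(3, F))) ∧
    ∃ A C : ℕ, (∑ g, (X g : ℤ) * (X g - 1) * (X g - 2)) = A + C ∧
      (A : ℤ) * (N * (N - 1) * q ^ 2) ≤
        (#B * (#B - 1) * (#B - 2)) ^ 2 * Fintype.card (PGL(3, F)) ∧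
      (C : ℤ) * (N * (N - 1) * (q - 1)) ≤
        (#{t ∈ trip B | IsCol t.1 t.2.1 t.2.2} : ℤ) ^ 2 * Fintype.card (PGL(3, F)) := by
  obtain ⟨c1, c2, c3⟩ := hCnt F q N hq hN
  have hq1 : 1 ≤ q := by
    rw [← hq]
    exact Nat.card_pos
  have hN1 : 1 ≤ N := by omega
  have cΩ : Fintype.card (ℙ F (Fin 3 → F)) = N := by
    rw [← Nat.card_eq_fintype_card, c1]
  -- the sets
  set Y : PGL(3, F) → Finset (ℙ F (Fin 3 → F)) := fun g => {P ∈ B | g • P ∈ B} with hY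
  have hXY : ∀ g, X g = #(Y g) := hX
  -- transitivity on points
  have hpt : ∀ P P' : ℙ F (Fin 3 → F), ∃ g : PGL(3, F), g • P = P' := by
    intro P P'
    have hne : ∀ P : ℙ F (Fin 3 → F), ∃ Q, P ≠ Q := by
      intro P
      by_contra hcon
      push Not at hcon
      have h1 : Fintype.card (ℙ F (Fin 3 → F)) ≤ 1 :=
        Fintype.card_le_one_iff.2 (fun a b => by rw [← hcon a, ← hcon b])
      rw [cΩ, hN] at h1
      nlinarith
    obtain ⟨Q, hQ⟩ := hne P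
    obtain ⟨Q', hQ'⟩ := hne P'
    obtain ⟨g, hg, _⟩ := hPair F P Q P' Q' hQ hQ'
    exact ⟨g, hg⟩
  refine ⟨?_, ?_, ?_⟩
  · -- first moment
    have h := sum_eq (G := PGL(3, F)) (Finset.univ : Finset (ℙ F (Fin 3 → F))) B
      (fun s _ t _ => hpt s t) (Finset.subset_univ _) (fun _ _ _ => Finset.mem_univ _)
    rw [Finset.card_univ, cΩ] at h
    have h2 : ∑ g : PGL(3, F), #{s ∈ B | g • s ∈ B} = ∑ g, X g :=
      Finset.sum_congr rfl (fun g _ => (hX g).symm)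
    rw [h2] at h
    exact_mod_cast h
  · -- second moment
    have h := sum_eq (G := PGL(3, F)) (Finset.univ : Finset (ℙ F (Fin 3 → F))).offDiag B.offDiag
      (fun s hs t ht => by
        rw [mem_offDiag] at hs ht
        obtain ⟨g, hg1, hg2⟩ := hPair F s.1 s.2 t.1 t.2 hs.2.2 ht.2.2
        exact ⟨g, Prod.ext hg1 hg2⟩)
      (fun s hs => by
        rw [mem_offDiag] at hs ⊢
        exact ⟨mem_univ _, mem_univ _, hs.2.2⟩)
      (fun g s hs => by
        rw [mem_offDiag] at hs ⊢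
        exact ⟨mem_univ _, mem_univ _, fun e => hs.2.2 (smul_left_cancel g e)⟩)
    have h2 : ∀ g : PGL(3, F), {s ∈ B.offDiag | g • s ∈ B.offDiag} = (Y g).offDiag := by
      intro g
      ext ⟨P, Q⟩
      simp only [mem_filter, mem_offDiag, hY, Prod.smul_mk]
      constructor
      · rintro ⟨⟨a, b, c⟩, d, e, f⟩
        exact ⟨⟨a, d⟩, ⟨b, e⟩, c⟩
      · rintro ⟨⟨a, d⟩, ⟨b, e⟩, c⟩
        exact ⟨⟨a, b, c⟩, d, e, fun e => c (smul_left_cancel g e)⟩
    have hod : ∀ S : Finset (ℙ F (Fin 3 → F)), (#S.offDiag : ℤ) = #S * (#S - 1) := by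
      intro S
      rw [offDiag_card, Nat.cast_sub (Nat.le_mul_self _)]
      push_cast
      ring
    have h3 : (∑ g : PGL(3, F), (#{s ∈ B.offDiag | g • s ∈ B.offDiag} : ℤ)) =
        ∑ g, (X g : ℤ) * (X g - 1) := by
      refine Finset.sum_congr rfl (fun g _ => ?_)
      rw [h2 g, hod, hXY]
    have h4 : ((∑ g : PGL(3, F), (#{s ∈ B.offDiag | g • s ∈ B.offDiag} : ℤ))) *
        (#(Finset.univ : Finset (ℙ F (Fin 3 → F))).offDiag : ℤ) =
        (#B.offDiag : ℤ) ^ 2 * Fintype.card (PGL(3, F)) := by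
      exact_mod_cast h
    rw [h3, hod, hod, Finset.card_univ, cΩ] at h4
    exact h4
  · -- third moment
    set TN : Finset (ℙ F (Fin 3 → F) × ℙ F (Fin 3 → F) × ℙ F (Fin 3 → F)) :=
      {t ∈ trip B | IsTri t.1 t.2.1 t.2.2} with hTN
    set TC : Finset (ℙ F (Fin 3 → F) × ℙ F (Fin 3 → F) × ℙ F (Fin 3 → F)) :=
      {t ∈ trip B | IsCol t.1 t.2.1 t.2.2} with hTC
    set ON : Finset (ℙ F (Fin 3 → F) × ℙ F (Fin 3 → F) × ℙ F (Fin 3 → F)) :=
      {t | IsTri t.1 t.2.1 t.2.2} with hON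
    set OC : Finset (ℙ F (Fin 3 → F) × ℙ F (Fin 3 → F) × ℙ F (Fin 3 → F)) :=
      {t | IsCol t.1 t.2.1 t.2.2} with hOC
    have n1 := sum_le (G := PGL(3, F)) ON TN
      (fun s hs t ht => by
        rw [hON, mem_filter] at hs ht
        obtain ⟨g, h1, h2, h3⟩ := hTri F _ _ _ _ _ _ hs.2 ht.2
        exact ⟨g, Prod.ext h1 (Prod.ext h2 h3)⟩)
      (fun s hs => by
        rw [hTN, mem_filter] at hs
        rw [hON, mem_filter]
        exact ⟨mem_univ _, hs.2⟩)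
    have n2 := sum_le (G := PGL(3, F)) OC TC
      (fun s hs t ht => by
        rw [hOC, mem_filter] at hs ht
        obtain ⟨g, h1, h2, h3⟩ := hCol F _ _ _ _ _ _ hs.2 ht.2
        exact ⟨g, Prod.ext h1 (Prod.ext h2 h3)⟩)
      (fun s hs => by
        rw [hTC, mem_filter] at hs
        rw [hOC, mem_filter]
        exact ⟨mem_univ _, hs.2⟩)
    have cN : N * (N - 1) * q ^ 2 ≤ #ON := by
      refine c2.trans (le_of_eq ?_)
      rw [← Set.ncard_coe_finset]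
      congr 1
      ext t
      simp [hON]
    have cC : N * (N - 1) * (q - 1) ≤ #OC := by
      refine c3.trans (le_of_eq ?_)
      rw [← Set.ncard_coe_finset]
      congr 1
      ext t
      simp [hOC]
    refine ⟨∑ g : PGL(3, F), #{s ∈ TN | g • s ∈ TN}, ∑ g : PGL(3, F), #{s ∈ TC | g • s ∈ TC},
      ?_, ?_, ?_⟩
    · have h5 : ∀ g : PGL(3, F), trip (Y g) = {s ∈ TN | g • s ∈ TN} ∪ {s ∈ TC | g • s ∈ TC} := by
        intro g
        ext ⟨P, Q, R⟩
        simp only [mem_union, mem_filter, mem_trip, hTN, hTC, hY, Prod.smul_mk]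
        constructor
        · rintro ⟨⟨⟨a1, b1⟩, ⟨a2, b2⟩, ⟨a3, b3⟩⟩, c1, c2, c3⟩
          have d1 : g • P ≠ g • Q := fun e => c1 (smul_left_cancel g e)
          have d2 : g • P ≠ g • R := fun e => c2 (smul_left_cancel g e)
          have d3 : g • Q ≠ g • R := fun e => c3 (smul_left_cancel g e)
          by_cases ht : IsTri P Q R
          · left
            exact ⟨⟨⟨⟨a1, a2, a3⟩, c1, c2, c3⟩, ht⟩, ⟨⟨b1, b2, b3⟩, d1, d2, d3⟩, hInv F g _ _ _ ht⟩
          · right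
            have hc : IsCol P Q R := ⟨c1, c2, c3, ht⟩
            exact ⟨⟨⟨⟨a1, a2, a3⟩, c1, c2, c3⟩, hc⟩, ⟨⟨b1, b2, b3⟩, d1, d2, d3⟩,
              isCol_smul hInv g hc⟩
        · rintro (⟨⟨⟨⟨a1, a2, a3⟩, c1, c2, c3⟩, _⟩, ⟨⟨b1, b2, b3⟩, _⟩, _⟩ |
            ⟨⟨⟨⟨a1, a2, a3⟩, c1, c2, c3⟩, _⟩, ⟨⟨b1, b2, b3⟩, _⟩, _⟩) <;>
          exact ⟨⟨⟨a1, b1⟩, ⟨a2, b2⟩, ⟨a3, b3⟩⟩, c1, c2, c3⟩
      have h6 : ∀ g : PGL(3, F), (X g : ℤ) * (X g - 1) * (X g - 2) =
          (#{s ∈ TN | g • s ∈ TN} : ℤ) + #{s ∈ TC | g • s ∈ TC} := by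
        intro g
        rw [hXY, ← card_trip, h5, Finset.card_union_of_disjoint]
        · push_cast
          ring
        · rw [Finset.disjoint_left]
          rintro ⟨P, Q, R⟩ h1 h2
          simp only [mem_filter, hTN, hTC] at h1 h2
          exact h2.1.2.2.2.2 h1.1.2
      rw [Finset.sum_congr rfl (fun g _ => h6 g), Finset.sum_add_distrib]
      push_cast
      ring
    · have h7 : #TN ≤ #(trip B) := Finset.card_filter_le _ _
      have h8 := aux1 _ _ N q _ _ _ cN hN1 n1 h7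
      rw [card_trip] at h8
      exact h8
    · exact aux2 _ _ N q _ _ cC hN1 hq1 n2

end Pool.Agent.DJC
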