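import Pool.Agent.DJC.St

/-!
# [Cnt] Numbers of points, triangles and collinear triples
-/

set_option autoImplicit false

open scoped LinearAlgebra.Projectivization MatrixGroups

namespace Pool.Agent.DJC

private theorem Cnt_pair {F : Type} [Field F] (P Q : ℙ F (Fin 3 → F)) (h : P ≠ Q) :
    LinearIndependent F ![P.rep, Q.rep] := by
  have h1 := (Projectivization.independent_pair_iff_ne P Q).2 h
  rw [Projectivization.independent_iff] at h1
  have h2 : Projectivization.rep ∘ ![P, Q] = ![P.rep, Q.rep] := by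
    ext i j
    fin_cases i <;> rfl
  rwa [h2] at h1

private theorem Cnt_third {F : Type} [Field F] (u v : Fin 3 → F)
    (h : LinearIndependent F ![u, v]) : ∃ z : Fin 3 → F, Matrix.det (Matrix.of ![u, v, z]) ≠ 0 := by
  have h1 := crossProduct_ne_zero_iff_linearIndependent.2 h
  obtain ⟨i, hi⟩ := Function.ne_iff.1 h1
  refine ⟨Pi.single i 1, ?_⟩
  have h2 : Matrix.det (Matrix.of ![u, v, Pi.single i 1]) = crossProduct u v i := by
    have h3 := triple_product_eq_det u v (Pi.single i 1)
    rw [triple_product_permutation, triple_product_permutation] at h3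
    rw [single_one_dotProduct] at h3
    exact h3.symm
  rw [h2]
  exact hi

private theorem Cnt_det {F : Type} [Field F] (u v z : Fin 3 → F) (a b c : F) :
    Matrix.det (Matrix.of ![u, v, a • u + b • v + c • z]) =
      c * Matrix.det (Matrix.of ![u, v, z]) := by
  rw [Matrix.det_fin_three, Matrix.det_fin_three]
  simp
  ring

/-- Coefficients of a vanishing combination. -/
private theorem Cnt_coef {F : Type} [Field F] (u v z : Fin 3 → F) (h : LinearIndependent F ![u, v])
    (hz : Matrix.det (Matrix.of ![u, v, z]) ≠ 0) (a b c : F)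
    (h0 : a • u + b • v + c • z = 0) : a = 0 ∧ b = 0 ∧ c = 0 := by
  have h1 := Cnt_det u v z a b c
  rw [h0] at h1
  have h2 : Matrix.det (Matrix.of ![u, v, (0 : Fin 3 → F)]) = 0 := by
    rw [Matrix.det_fin_three]
    simp
  rw [h2] at h1
  have hc : c = 0 := by
    rcases mul_eq_zero.1 h1.symm with h3 | h3
    · exact h3
    · exact absurd h3 hz
  subst hc
  rw [zero_smul, add_zero] at h0
  have h3 := LinearIndependent.pair_iff.1 h a b h0
  exact ⟨h3.1, h3.2, rfl⟩

/-- The number of ordered pairs of different elements. -/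
private theorem Cnt_off {X : Type} [Finite X] (N : ℕ) (h : Nat.card X = N) :
    Nat.card {p : X × X // p.1 ≠ p.2} = N * (N - 1) := by
  classical
  have := Fintype.ofFinite X
  rw [Nat.card_eq_fintype_card] at h
  have h1 : Nat.card {p : X × X // p.1 ≠ p.2} = (Finset.univ : Finset X).offDiag.card := by
    rw [Nat.card_eq_fintype_card, Fintype.card_subtype]
    congr 1
    ext p
    simp [Finset.mem_offDiag]
  rw [h1, Finset.offDiag_card, Finset.card_univ, h, Nat.mul_sub_one]

theorem thm_Cnt : St_Cnt := by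
  classical
  intro F _ _ q N hq hN
  have hcard : Nat.card (ℙ F (Fin 3 → F)) = N := by
    rw [Projectivization.card_of_finrank F (Fin 3 → F) (n := 3) (by simp), hq, hN]
    simp [Finset.sum_range_succ]
    ring
  have hfin : Finite (ℙ F (Fin 3 → F)) := by
    apply Nat.finite_of_card_ne_zero
    rw [hcard, hN]
    omega
  have hpair := Cnt_off N hcard
  refine ⟨hcard, ?_, ?_⟩
  · -- triangles
    choose! z hz using fun p : {p : ℙ F (Fin 3 → F) × ℙ F (Fin 3 → F) // p.1 ≠ p.2} =>
      Cnt_third p.1.1.rep p.1.2.rep (Cnt_pair p.1.1 p.1.2 p.2)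
    have hne : ∀ (p : {p : ℙ F (Fin 3 → F) × ℙ F (Fin 3 → F) // p.1 ≠ p.2}) (a b : F),
        a • p.1.1.rep + b • p.1.2.rep + z p ≠ 0 := by
      intro p a b h0
      have h1 := Cnt_coef _ _ (z p) (Cnt_pair p.1.1 p.1.2 p.2) (hz p) a b 1
        (by rw [one_smul]; exact h0)
      exact one_ne_zero h1.2.2
    have hdet : ∀ (p : {p : ℙ F (Fin 3 → F) × ℙ F (Fin 3 → F) // p.1 ≠ p.2}) (a b : F),
        IsTri p.1.1 p.1.2 (Projectivization.mk F _ (hne p a b)) := by
      intro p a b
      have h1 := isTri_mk (Projectivization.rep_nonzero p.1.1)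
        (Projectivization.rep_nonzero p.1.2) (hne p a b)
      rw [Projectivization.mk_rep, Projectivization.mk_rep] at h1
      rw [h1]
      have h2 := Cnt_det p.1.1.rep p.1.2.rep (z p) a b 1
      rw [one_smul, one_mul] at h2
      rw [h2]
      exact hz p
    let f : {p : ℙ F (Fin 3 → F) × ℙ F (Fin 3 → F) // p.1 ≠ p.2} × F × F →
        {t : ℙ F (Fin 3 → F) × ℙ F (Fin 3 → F) × ℙ F (Fin 3 → F) // IsTri t.1 t.2.1 t.2.2} :=
      fun x => ⟨(x.1.1.1, x.1.1.2, Projectivization.mk F _ (hne x.1 x.2.1 x.2.2)),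
        hdet x.1 x.2.1 x.2.2⟩
    have hf : Function.Injective f := by
      rintro ⟨p, a, b⟩ ⟨p', a', b'⟩ h
      have h1 := congrArg Subtype.val h
      have e1 : p.1.1 = p'.1.1 := congrArg (fun t => t.1) h1
      have e2 : p.1.2 = p'.1.2 := congrArg (fun t => t.2.1) h1
      have e3 : Projectivization.mk F _ (hne p a b) = Projectivization.mk F _ (hne p' a' b') :=
        congrArg (fun t => t.2.2) h1
      have hp : p = p' := Subtype.ext (Prod.ext e1 e2)
      subst hp
      rw [Projectivization.mk_eq_mk_iff'] at e3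
      obtain ⟨c, hc⟩ := e3
      have h2 : (c * a' - a) • p.1.1.rep + (c * b' - b) • p.1.2.rep + (c - 1) • z p = 0 := by
        have h3 : (c * a' - a) • p.1.1.rep + (c * b' - b) • p.1.2.rep + (c - 1) • z p =
            c • (a' • p.1.1.rep + b' • p.1.2.rep + z p) -
              (a • p.1.1.rep + b • p.1.2.rep + z p) := by
          module
        rw [h3, hc, sub_self]
      obtain ⟨g1, g2, g3⟩ := Cnt_coef _ _ (z p) (Cnt_pair p.1.1 p.1.2 p.2) (hz p) _ _ _ h2
      have hc1 : c = 1 := by rwa [sub_eq_zero] at g3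
      subst hc1
      rw [one_mul, sub_eq_zero] at g1 g2
      rw [g1, g2]
    have h1 := Nat.card_le_card_of_injective f hf
    rw [Nat.card_prod, Nat.card_prod, hpair, hq] at h1
    rw [← Nat.card_coe_set_eq]
    calc N * (N - 1) * q ^ 2 = N * (N - 1) * (q * q) := by ring
      _ ≤ _ := h1
  · -- collinear triples
    have hne : ∀ (p : {p : ℙ F (Fin 3 → F) × ℙ F (Fin 3 → F) // p.1 ≠ p.2}) (c : Fˣ),
        p.1.1.rep + (c : F) • p.1.2.rep ≠ 0 := by
      intro p c h0
      have h1 := LinearIndependent.pair_iff.1 (Cnt_pair p.1.1 p.1.2 p.2) 1 c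
        (by rw [one_smul]; exact h0)
      exact one_ne_zero h1.1
    have hdet : ∀ (p : {p : ℙ F (Fin 3 → F) × ℙ F (Fin 3 → F) // p.1 ≠ p.2}) (c : Fˣ),
        IsCol p.1.1 p.1.2 (Projectivization.mk F _ (hne p c)) := by
      intro p c
      have hpi := LinearIndependent.pair_iff.1 (Cnt_pair p.1.1 p.1.2 p.2)
      refine ⟨p.2, ?_, ?_, ?_⟩
      · intro h
        have h1 : Projectivization.mk F p.1.1.rep (Projectivization.rep_nonzero _) =
            Projectivization.mk F _ (hne p c) := by rw [Projectivization.mk_rep]; exact h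
        rw [Projectivization.mk_eq_mk_iff'] at h1
        obtain ⟨a, ha⟩ := h1
        have h2 : (a - 1) • p.1.1.rep + (a * c) • p.1.2.rep = 0 := by
          have h3 : (a - 1) • p.1.1.rep + (a * c) • p.1.2.rep =
              a • (p.1.1.rep + (c : F) • p.1.2.rep) - p.1.1.rep := by module
          rw [h3, ha, sub_self]
        obtain ⟨g1, g2⟩ := hpi _ _ h2
        rw [sub_eq_zero] at g1
        rw [g1, one_mul] at g2
        exact c.ne_zero g2
      · intro h
        have h1 : Projectivization.mk F p.1.2.rep (Projectivization.rep_nonzero _) =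
            Projectivization.mk F _ (hne p c) := by rw [Projectivization.mk_rep]; exact h
        rw [Projectivization.mk_eq_mk_iff'] at h1
        obtain ⟨a, ha⟩ := h1
        have h2 : a • p.1.1.rep + (a * c - 1) • p.1.2.rep = 0 := by
          have h3 : a • p.1.1.rep + (a * c - 1) • p.1.2.rep =
              a • (p.1.1.rep + (c : F) • p.1.2.rep) - p.1.2.rep := by module
          rw [h3, ha, sub_self]
        obtain ⟨g1, g2⟩ := hpi _ _ h2
        rw [g1, zero_mul, zero_sub, neg_eq_zero] at g2
        exact one_ne_zero g2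
      · intro h
        have h1 := isTri_mk (Projectivization.rep_nonzero p.1.1)
          (Projectivization.rep_nonzero p.1.2) (hne p c)
        rw [Projectivization.mk_rep, Projectivization.mk_rep] at h1
        have h2 := h1.1 h
        have h3 := Cnt_det p.1.1.rep p.1.2.rep 0 1 c 0
        rw [one_smul, zero_smul, add_zero, zero_mul] at h3
        exact h2 h3
    let f : {p : ℙ F (Fin 3 → F) × ℙ F (Fin 3 → F) // p.1 ≠ p.2} × Fˣ →
        {t : ℙ F (Fin 3 → F) × ℙ F (Fin 3 → F) × ℙ F (Fin 3 → F) // IsCol t.1 t.2.1 t.2.2} :=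
      fun x => ⟨(x.1.1.1, x.1.1.2, Projectivization.mk F _ (hne x.1 x.2)), hdet x.1 x.2⟩
    have hf : Function.Injective f := by
      rintro ⟨p, c⟩ ⟨p', c'⟩ h
      have h1 := congrArg Subtype.val h
      have e1 : p.1.1 = p'.1.1 := congrArg (fun t => t.1) h1
      have e2 : p.1.2 = p'.1.2 := congrArg (fun t => t.2.1) h1
      have e3 : Projectivization.mk F _ (hne p c) = Projectivization.mk F _ (hne p' c') :=
        congrArg (fun t => t.2.2) h1
      have hp : p = p' := Subtype.ext (Prod.ext e1 e2)
      subst hp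
      rw [Projectivization.mk_eq_mk_iff'] at e3
      obtain ⟨a, ha⟩ := e3
      have h2 : (a - 1) • p.1.1.rep + (a * c' - c) • p.1.2.rep = 0 := by
        have h3 : (a - 1) • p.1.1.rep + (a * c' - c) • p.1.2.rep =
            a • (p.1.1.rep + (c' : F) • p.1.2.rep) - (p.1.1.rep + (c : F) • p.1.2.rep) := by
          module
        rw [h3, ha, sub_self]
      obtain ⟨g1, g2⟩ := LinearIndependent.pair_iff.1 (Cnt_pair p.1.1 p.1.2 p.2) _ _ h2
      rw [sub_eq_zero] at g1 g2
      rw [g1, one_mul] at g2
      rw [Units.ext g2]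
    have h1 := Nat.card_le_card_of_injective f hf
    rw [Nat.card_prod, hpair, Nat.card_units, hq] at h1
    rw [← Nat.card_coe_set_eq]
    exact h1

end Pool.Agent.DJC
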