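import Pool.Agent.DJC.St

/-!
# DJC: the number of collinear triples of points of `B`
-/

set_option autoImplicit false

open scoped LinearAlgebra.Projectivization MatrixGroups

namespace Pool.Agent.DJC

private lemma ColB_fib {A B C : Type} [Fintype A] [Fintype B] [Finite C] (P : A → B → C → Prop) :
    Set.ncard {t : A × B × C | P t.1 t.2.1 t.2.2} = ∑ a, ∑ b, Set.ncard {c | P a b c} := by
  have e : {t : A × B × C // P t.1 t.2.1 t.2.2} ≃ Σ a : A, Σ b : B, {c : C // P a b c} :=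
    { toFun := fun t => ⟨t.1.1, t.1.2.1, t.1.2.2, t.2⟩
      invFun := fun s => ⟨(s.1, s.2.1, s.2.2.1), s.2.2.2⟩
      left_inv := fun _ => rfl
      right_inv := fun _ => rfl }
  have h1 : Set.ncard {t : A × B × C | P t.1 t.2.1 t.2.2} =
      Nat.card {t : A × B × C // P t.1 t.2.1 t.2.2} := rfl
  rw [h1, Nat.card_congr e, Nat.card_sigma]
  refine Finset.sum_congr rfl fun a _ => ?_
  rw [Nat.card_sigma]
  rfl

private lemma ColB_const {A : Type} [Fintype A] (g : A → ℕ) (c : ℕ) (h : ∀ x, g x ≤ c) :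
    ∑ x, g x ≤ Nat.card A * c := by
  refine (Finset.sum_le_card_nsmul Finset.univ g c fun x _ => h x).trans ?_
  rw [Finset.card_univ, Nat.card_eq_fintype_card, smul_eq_mul]

private lemma ColB_diag {A : Type} [Fintype A] (g : A → A → ℕ) (c : ℕ) (h0 : ∀ x, g x x = 0)
    (h : ∀ x y, x ≠ y → g x y ≤ c) : ∑ x, ∑ y, g x y ≤ Nat.card A * ((Nat.card A - 1) * c) := by
  classical
  refine ColB_const _ _ fun x => ?_
  rw [← Finset.add_sum_erase _ _ (Finset.mem_univ x), h0, zero_add]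
  refine (Finset.sum_le_card_nsmul _ _ c fun y hy => ?_).trans ?_
  · exact h x y (Finset.ne_of_mem_erase hy).symm
  · rw [Finset.card_erase_of_mem (Finset.mem_univ x), Finset.card_univ,
      Nat.card_eq_fintype_card, smul_eq_mul]

theorem thm_ColB (h1 : St_K) (h2 : St_AA) (h3 : St_AI) (h4 : St_II) : St_ColB := by
  classical
  intro F _ _ r q k hr hF hq hk
  have hF3 : Nat.card F = r ^ 3 := hF.trans hq
  have hK : Nat.card {y : F // y ^ (r ^ 2 + r + 1) = 1} = k := (h1 F r hr hF3).trans hk.symm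
  have _i1 : Fintype F := Fintype.ofFinite F
  have _i2 : Fintype {y : F // y ^ (r ^ 2 + r + 1) = 1} := Fintype.ofFinite _
  have h0 : ∀ a : Prm r F, Set.ncard {c : Prm r F | IsCol (pt a) (pt a) (pt c)} = 0 := by
    intro a
    have h5 : {c : Prm r F | IsCol (pt a) (pt a) (pt c)} = ∅ := by
      ext c
      exact ⟨fun h => h.1 rfl, fun h => h.elim⟩
    rw [h5, Set.ncard_empty]
  rw [ColB_fib (fun a b c : Prm r F => IsCol (pt a) (pt b) (pt c)), Fintype.sum_sum_type]
  simp only [Fintype.sum_sum_type, Finset.sum_add_distrib]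
  have e1 := ColB_diag (fun x y : F => Set.ncard {c : Prm r F |
    IsCol (pt (Sum.inl x : Prm r F)) (pt (Sum.inl y : Prm r F)) (pt c)}) (r - 1)
    (fun x => h0 _) (fun x y hxy => h2 F r hr hF3 x y hxy)
  have e2 := ColB_const (fun x : F => ∑ y : {y : F // y ^ (r ^ 2 + r + 1) = 1}, Set.ncard
    {c : Prm r F | IsCol (pt (Sum.inl x : Prm r F)) (pt (Sum.inr y : Prm r F)) (pt c)}) _
    (fun x => ColB_const _ (r - 1) fun y => (h3 F r hr hF3 x y).1)
  have e3 := ColB_const (fun y : {y : F // y ^ (r ^ 2 + r + 1) = 1} => ∑ x : F, Set.ncard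
    {c : Prm r F | IsCol (pt (Sum.inr y : Prm r F)) (pt (Sum.inl x : Prm r F)) (pt c)}) _
    (fun y => ColB_const _ (r - 1) fun x => (h3 F r hr hF3 x y).2)
  have e4 := ColB_diag (fun y y' : {y : F // y ^ (r ^ 2 + r + 1) = 1} => Set.ncard
    {c : Prm r F | IsCol (pt (Sum.inr y : Prm r F)) (pt (Sum.inr y' : Prm r F)) (pt c)}) (k - 2)
    (fun x => h0 _) (fun y y' hyy => by
      rw [hk]
      exact h4 F r hr hF3 y y' hyy)
  rw [hF] at e1 e2 e3
  rw [hK] at e2 e3 e4
  refine (add_le_add (add_le_add e1 e2) (add_le_add e3 e4)).trans (le_of_eq ?_)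
  ring

end Pool.Agent.DJC
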