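import Mathlib

/-!
# DJC: disjoint projective copies of the blocking set `{(1, x, x ^ r)} ∪ {(0, 1, y)}` of
`PG(2, r ^ 3)`: definitions
-/

set_option autoImplicit false

open scoped LinearAlgebra.Projectivization MatrixGroups

namespace Pool.Agent.DJC

theorem ne_zero_affine {F : Type*} [Field F] (x z : F) : (![1, x, z] : Fin 3 → F) ≠ 0 := by
  intro h
  have := congrFun h 0
  simp at this

theorem ne_zero_infinite {F : Type*} [Field F] (y : F) : (![0, 1, y] : Fin 3 → F) ≠ 0 := by
  intro h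
  have := congrFun h 1
  simp at this

/-- The point set `B = {(1, x, x ^ r)} ∪ {(0, 1, y) : y ^ (r ^ 2 + r + 1) = 1}` of `PG(2, F)`. -/
def blockingSet (r : ℕ) (F : Type*) [Field F] : Set (ℙ F (Fin 3 → F)) :=
  {P | ∃ x : F, P = Projectivization.mk F ![1, x, x ^ r] (ne_zero_affine x (x ^ r))} ∪
  {P | ∃ y : F, y ^ (r ^ 2 + r + 1) = 1 ∧ P = Projectivization.mk F ![0, 1, y] (ne_zero_infinite y)}

/-- The parameters of the points of `B`. -/
abbrev Prm (r : ℕ) (F : Type*) [Field F] : Type _ := F ⊕ {y : F // y ^ (r ^ 2 + r + 1) = 1}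

/-- The vector with a given parameter. -/
def vec {r : ℕ} {F : Type*} [Field F] : Prm r F → (Fin 3 → F)
  | Sum.inl x => ![1, x, x ^ r]
  | Sum.inr y => ![0, 1, y.1]

theorem vec_ne_zero {r : ℕ} {F : Type*} [Field F] : ∀ a : Prm r F, vec a ≠ 0
  | Sum.inl x => ne_zero_affine x (x ^ r)
  | Sum.inr y => ne_zero_infinite y.1

/-- The point with a given parameter. -/
def pt {r : ℕ} {F : Type*} [Field F] (a : Prm r F) : ℙ F (Fin 3 → F) :=
  Projectivization.mk F (vec a) (vec_ne_zero a)

theorem range_pt (r : ℕ) (F : Type*) [Field F] : Set.range (pt : Prm r F → _) = blockingSet r F := by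
  ext P
  constructor
  · rintro ⟨a | ⟨y, hy⟩, rfl⟩
    · exact Or.inl ⟨a, rfl⟩
    · exact Or.inr ⟨y, hy, rfl⟩
  · rintro (⟨x, rfl⟩ | ⟨y, hy, rfl⟩)
    · exact ⟨Sum.inl x, rfl⟩
    · exact ⟨Sum.inr ⟨y, hy⟩, rfl⟩

theorem pt_injective (r : ℕ) (F : Type*) [Field F] : Function.Injective (pt : Prm r F → _) := by
  rintro (x | ⟨y, hy⟩) (x' | ⟨y', hy'⟩) h <;>
    rw [pt, pt, Projectivization.mk_eq_mk_iff'] at h <;>
    obtain ⟨a, ha⟩ := h
  · have h0 := congrFun ha 0
    have h1 := congrFun ha 1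
    simp [vec] at h0 h1
    rw [h0, one_mul] at h1
    rw [h1]
  · have h0 := congrFun ha 0
    simp [vec] at h0
  · have h0 := congrFun ha 0
    have h1 := congrFun ha 1
    simp [vec] at h0 h1
    rw [h0, zero_mul] at h1
    exact absurd h1 zero_ne_one
  · have h1 := congrFun ha 1
    have h2 := congrFun ha 2
    simp [vec] at h1 h2
    rw [h1, one_mul] at h2
    subst h2
    rfl

/-- `P`, `Q`, `R` are distinct points of a line. -/
def IsCol {F : Type*} [Field F] (P Q R : ℙ F (Fin 3 → F)) : Prop :=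
  P ≠ Q ∧ P ≠ R ∧ Q ≠ R ∧ ¬ Projectivization.Independent ![P, Q, R]

/-- `P`, `Q`, `R` are not on a line. -/
def IsTri {F : Type*} [Field F] (P Q R : ℙ F (Fin 3 → F)) : Prop :=
  Projectivization.Independent ![P, Q, R]

/-- Collinearity through vectors. -/
theorem isTri_mk {F : Type*} [Field F] {u v w : Fin 3 → F} (hu : u ≠ 0) (hv : v ≠ 0) (hw : w ≠ 0) :
    IsTri (Projectivization.mk F u hu) (Projectivization.mk F v hv) (Projectivization.mk F w hw) ↔
      Matrix.det (Matrix.of ![u, v, w]) ≠ 0 := by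
  have key : IsTri (Projectivization.mk F u hu) (Projectivization.mk F v hv)
      (Projectivization.mk F w hw) ↔ LinearIndependent F ![u, v, w] := by
    rw [IsTri, Projectivization.independent_iff]
    obtain ⟨a, ha⟩ := Projectivization.exists_smul_eq_mk_rep F u hu
    obtain ⟨b, hb⟩ := Projectivization.exists_smul_eq_mk_rep F v hv
    obtain ⟨c, hc⟩ := Projectivization.exists_smul_eq_mk_rep F w hw
    have e : Projectivization.rep ∘ ![Projectivization.mk F u hu, Projectivization.mk F v hv,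
        Projectivization.mk F w hw] = (![a, b, c] : Fin 3 → Fˣ) • ![u, v, w] := by
      ext i j
      fin_cases i
      · simp [← ha]
      · simp [← hb]
      · simp [← hc]
    rw [e, LinearIndependent.units_smul_iff]
  have h := Matrix.linearIndependent_rows_iff_isUnit (A := Matrix.of ![u, v, w])
  rw [Matrix.isUnit_iff_isUnit_det, isUnit_iff_ne_zero] at h
  rw [key]
  exact h

end Pool.Agent.DJC
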