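import Pool.Agent.DJC.St

/-!
# DJC [Ex]: some projectivity moves `B` off itself
-/

set_option autoImplicit false

open scoped LinearAlgebra.Projectivization MatrixGroups

namespace Pool.Agent.DJC

section algebra

variable {F : Type*} [Field F]

/-- The linear map `(X, Y, Z) ↦ (Y, Z, c X + m Z)`. -/
noncomputable def gammaMap (c m : F) (hc : c ≠ 0) : (Fin 3 → F) ≃ₗ[F] (Fin 3 → F) where
  toFun v := ![v 1, v 2, c * v 0 + m * v 2]
  map_add' v w := by
    ext i
    fin_cases i <;> simp
    ring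
  map_smul' a v := by
    ext i
    fin_cases i <;> simp
    ring
  invFun w := ![(w 2 - m * w 1) / c, w 0, w 1]
  left_inv v := by
    ext i
    fin_cases i <;> simp
    field_simp
  right_inv w := by
    ext i
    fin_cases i <;> simp
    field_simp
    ring

/-- The linear map `(X, Y, Z) ↦ (Z, Y, c X)`. -/
noncomputable def swapMap (c : F) (hc : c ≠ 0) : (Fin 3 → F) ≃ₗ[F] (Fin 3 → F) where
  toFun v := ![v 2, v 1, c * v 0]
  map_add' v w := by
    ext i
    fin_cases i <;> simp
    ring
  map_smul' a v := by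
    ext i
    fin_cases i <;> simp
    ring
  invFun w := ![w 2 / c, w 1, w 0]
  left_inv v := by
    ext i
    fin_cases i <;> simp
    field_simp
  right_inv w := by
    ext i
    fin_cases i <;> simp
    field_simp

/-- If `m` has norm different from `1` and `c` is not a value of `y ↦ y^(p²-p+1) - m y^p`, then
`gammaMap c m` moves `blockingSet` off itself. -/
theorem gamma_disjoint (p : ℕ) (hp : 2 ≤ p) (c m : F) (hc : c ≠ 0)
    (hm : m ^ (p ^ 2 + p + 1) ≠ 1)
    (hg : ∀ y : F, y ^ (p ^ 2 - p + 1) - m * y ^ p ≠ c) :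
    Projectivization.map (gammaMap c m hc).toLinearMap (gammaMap c m hc).injective ''
      blockingSet p F ∩ blockingSet p F = ∅ := by
  rw [Set.eq_empty_iff_forall_notMem]
  rintro Q ⟨⟨P, hP, rfl⟩, hQ⟩
  have hle : p ≤ p ^ 2 := by nlinarith
  rcases hP with ⟨x, rfl⟩ | ⟨y, hy, rfl⟩ <;> rcases hQ with ⟨u, hu⟩ | ⟨z, hz, hu⟩ <;>
    rw [Projectivization.map_mk, Projectivization.mk_eq_mk_iff'] at hu <;>
    obtain ⟨a, ha⟩ := hu
  · have h0 := congrFun ha 0
    have h1 := congrFun ha 1
    have h2 := congrFun ha 2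
    simp [gammaMap] at h0 h1 h2
    subst h0
    have ha0 : a ≠ 0 := by
      rintro rfl
      have hp0 : p ≠ 0 := by omega
      simp [hp0] at h2
      exact hc h2.symm
    apply hg a
    have h3 : a ^ (p ^ 2 - p + 1) = a * u ^ p := by
      have h4 : a ^ (p - 1) ≠ 0 := pow_ne_zero _ ha0
      apply mul_right_cancel₀ h4
      rw [← pow_add]
      have h5 : p ^ 2 - p + 1 + (p - 1) = p * p := by
        have : p * p = p ^ 2 := by ring
        omega
      rw [h5, pow_mul, ← h1, mul_pow]
      have h6 : a * u ^ p * a ^ (p - 1) = (a ^ (p - 1) * a) * u ^ p := by ring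
      rw [h6, ← pow_succ, Nat.sub_add_cancel (by omega : 1 ≤ p)]
    rw [h3, h2]
    ring
  · have h0 := congrFun ha 0
    have h1 := congrFun ha 1
    have h2 := congrFun ha 2
    simp [gammaMap] at h0 h1 h2
    subst h0
    have hp0 : p ≠ 0 := by omega
    rw [zero_pow hp0] at h1
    subst h1
    simp [hp0] at h2
    exact hc h2.symm
  · have h0 := congrFun ha 0
    have h1 := congrFun ha 1
    have h2 := congrFun ha 2
    simp [gammaMap] at h0 h1 h2
    subst h0
    simp at h1 h2
    subst h1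
    have hu0 : u ≠ 0 := by
      rintro rfl
      simp at hy
    apply hm
    have h3 : m = u ^ (p - 1) := by
      apply mul_right_cancel₀ hu0
      rw [← h2, ← pow_succ, Nat.sub_add_cancel (by omega : 1 ≤ p)]
    rw [h3, ← pow_mul, mul_comm, pow_mul, hy, one_pow]
  · have h0 := congrFun ha 0
    simp [gammaMap] at h0

theorem swap_disjoint (c : F) (hc : c ≠ 0) (hc1 : c ≠ 1) :
    Projectivization.map (swapMap c hc).toLinearMap (swapMap c hc).injective ''
      blockingSet 2 F ∩ blockingSet 2 F = ∅ := by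
  rw [Set.eq_empty_iff_forall_notMem]
  rintro Q ⟨⟨P, hP, rfl⟩, hQ⟩
  rcases hP with ⟨x, rfl⟩ | ⟨y, hy, rfl⟩ <;> rcases hQ with ⟨u, hu⟩ | ⟨z, hz, hu⟩ <;>
    rw [Projectivization.map_mk, Projectivization.mk_eq_mk_iff'] at hu <;>
    obtain ⟨a, ha⟩ := hu
  · have h0 := congrFun ha 0
    have h1 := congrFun ha 1
    have h2 := congrFun ha 2
    simp [swapMap] at h0 h1 h2
    subst h0
    have hx : x ≠ 0 := by
      rintro rfl
      simp at h2
      exact hc h2.symm
    have hxu : x * u = 1 := by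
      apply mul_left_cancel₀ hx
      linear_combination h1
    apply hc1
    rw [← h2]
    have : x ^ 2 * u ^ 2 = (x * u) ^ 2 := by ring
    rw [this, hxu, one_pow]
  · have h0 := congrFun ha 0
    have h1 := congrFun ha 1
    have h2 := congrFun ha 2
    simp [swapMap] at h0 h1 h2
    subst h1
    have ha0 : a = 0 := pow_eq_zero_iff (two_ne_zero) |>.1 h0.symm
    subst ha0
    simp at h2
    exact hc h2.symm
  · have h0 := congrFun ha 0
    have h1 := congrFun ha 1
    have h2 := congrFun ha 2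
    simp [swapMap] at h0 h1 h2
    subst h0
    rcases h2 with h2 | h2
    · subst h2
      simp at hy
    · subst h2
      simp at h1
  · have h0 := congrFun ha 0
    simp [swapMap] at h0
    subst h0
    simp at hy

end algebra

section existence

variable {F : Type*} [Field F]

/-- For `t` of norm `1`, the element `m = (t^(r²-r+1) - 1) / (t^r - 1)` has norm `1` only if
`(1 + t)(1 + t^r)(1 + t^(r+1)) + t^(r+1) = 0`. -/
theorem norm_m (r : ℕ) (hr2 : 2 ≤ r) (hadd : ∀ x y : F, (x - y) ^ r = x ^ r - y ^ r)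
    (t : F) (ht1 : t ≠ 1) (ht : t ^ (r ^ 2 + r + 1) = 1)
    (hP : (1 + t) * (1 + t ^ r) * (1 + t ^ (r + 1)) + t ^ (r + 1) ≠ 0) :
    ((t ^ (r ^ 2 - r + 1) - 1) / (t ^ r - 1)) ^ (r ^ 2 + r + 1) ≠ 1 := by
  have ht0 : t ≠ 0 := by
    rintro rfl
    simp at ht
  -- norm as a product of conjugates
  have hN : ∀ z : F, (z - 1) ^ (r ^ 2 + r + 1) = (z - 1) * (z ^ r - 1) * (z ^ (r ^ 2) - 1) := by
    intro z
    have h1 : (z - 1) ^ r = z ^ r - 1 := by
      rw [hadd, one_pow]
    have h2 : (z - 1) ^ (r ^ 2) = z ^ (r ^ 2) - 1 := by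
      rw [pow_two, pow_mul, h1, hadd, one_pow, ← pow_mul]
    rw [pow_add, pow_add, h1, h2, pow_one]
    ring
  set b := t ^ r with hb
  have hb0 : b ≠ 0 := pow_ne_zero _ ht0
  have hpow : t ^ (r ^ 2) = (t * b)⁻¹ := by
    apply eq_inv_of_mul_eq_one_left
    rw [hb, ← ht]
    ring
  have hbp : b ^ r = (t * b)⁻¹ := by
    rw [hb, ← pow_mul, ← pow_two, hpow]
  have hbp2 : b ^ (r ^ 2) = t := by
    rw [pow_two, pow_mul, hbp, inv_pow, mul_pow, ← hb, hbp]
    field_simp
  have hT : t ^ (r ^ 2 - r + 1) = (b ^ 2)⁻¹ := by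
    apply eq_inv_of_mul_eq_one_left
    rw [hb, ← pow_mul, ← pow_add]
    have hle : r ≤ r ^ 2 := by nlinarith
    have : r ^ 2 - r + 1 + r * 2 = r ^ 2 + r + 1 := by omega
    rw [this, ht]
  have hTp : ((b ^ 2)⁻¹) ^ r = (t * b) ^ 2 := by
    rw [inv_pow, ← pow_mul, mul_comm, pow_mul, hbp, inv_pow, inv_inv]
  have hTp2 : ((b ^ 2)⁻¹) ^ (r ^ 2) = (t ^ 2)⁻¹ := by
    rw [inv_pow, ← pow_mul, mul_comm 2, pow_mul, hbp2]
  -- none of the relevant quantities vanishes
  have hb1 : b ≠ 1 := by
    intro h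
    rw [h, one_pow] at hbp2
    exact ht1 hbp2.symm
  have htb1 : t * b ≠ 1 := by
    intro h
    rw [h, inv_one] at hbp
    apply hb1
    have : (b - 1) ^ r = 0 := by
      rw [hadd, one_pow, hbp, sub_self]
    exact sub_eq_zero.1 (pow_eq_zero_iff (by omega) |>.1 this)
  rw [div_pow, hN, hN, hT, hTp, hTp2, hbp, hbp2]
  intro h
  have hden : (b - 1) * ((t * b)⁻¹ - 1) * (t - 1) ≠ 0 := by
    refine mul_ne_zero (mul_ne_zero (sub_ne_zero.2 hb1) ?_) (sub_ne_zero.2 ht1)
    rw [sub_ne_zero]
    intro h'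
    exact htb1 (inv_eq_one.1 h')
  rw [div_eq_one_iff_eq hden] at h
  apply hP
  have hs : t ^ (r + 1) = t * b := by
    rw [hb]; ring
  rw [hs]
  have h1 : (b - 1) * (1 - t * b) * (t - 1) ≠ 0 := by
    refine mul_ne_zero (mul_ne_zero (sub_ne_zero.2 hb1) ?_) (sub_ne_zero.2 ht1)
    rw [sub_ne_zero]
    exact htb1.symm
  apply mul_left_cancel₀ h1
  rw [mul_zero]
  field_simp at h
  linear_combination (-1) * h

theorem exists_t (r : ℕ) (hr3 : 3 ≤ r) [Finite F] (hF : Nat.card F = r ^ 3) :
    ∃ t : F, t ≠ 1 ∧ t ^ (r ^ 2 + r + 1) = 1 ∧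
      (1 + t) * (1 + t ^ r) * (1 + t ^ (r + 1)) + t ^ (r + 1) ≠ 0 := by
  classical
  obtain ⟨g, hg⟩ := IsCyclic.exists_ofOrder_eq_natCard (α := Fˣ)
  have hcard : Nat.card Fˣ = (r ^ 2 + r + 1) * (r - 1) := by
    rw [Nat.card_units, hF]
    obtain ⟨k, rfl⟩ : ∃ k, r = k + 1 := ⟨r - 1, by omega⟩
    simp only [Nat.add_sub_cancel]
    have : (k + 1) ^ 3 = ((k + 1) ^ 2 + (k + 1) + 1) * k + 1 := by ring
    omega
  rw [hcard] at hg
  have hz : orderOf (g ^ (r - 1)) = r ^ 2 + r + 1 := by
    rw [orderOf_pow_of_dvd (by omega) (by rw [hg]; exact Dvd.intro_left _ rfl), hg]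
    exact Nat.mul_div_cancel _ (by omega)
  set z : Fˣ := g ^ (r - 1) with hzdef
  let s : Finset F := (Finset.range (r ^ 2 + r + 1)).image (fun i => ((z ^ i : Fˣ) : F))
  have hs : s.card = r ^ 2 + r + 1 := by
    rw [Finset.card_image_of_injOn, Finset.card_range]
    intro i hi j hj hij
    apply pow_injOn_Iio_orderOf (x := z)
    · simpa [hz] using hi
    · simpa [hz] using hj
    · exact Units.ext hij
  by_contra hcon
  push Not at hcon
  let P : Polynomial F := (Polynomial.X - 1) * ((1 + Polynomial.X) * (1 + Polynomial.X ^ r) *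
    (1 + Polynomial.X ^ (r + 1)) + Polynomial.X ^ (r + 1))
  have hPdeg : P.natDegree ≤ 1 + (1 + r + (r + 1)) := by
    have h1 : (Polynomial.X - 1 : Polynomial F).natDegree ≤ 1 := by
      compute_degree
    have h2 : (1 + Polynomial.X : Polynomial F).natDegree ≤ 1 := by
      compute_degree
    have h3 : (1 + Polynomial.X ^ r : Polynomial F).natDegree ≤ r := by
      compute_degree
    have h4 : (1 + Polynomial.X ^ (r + 1) : Polynomial F).natDegree ≤ r + 1 := by
      compute_degree
    have h5 : (Polynomial.X ^ (r + 1) : Polynomial F).natDegree ≤ 1 + r + (r + 1) := by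
      rw [Polynomial.natDegree_X_pow]; omega
    exact Polynomial.natDegree_mul_le_of_le h1 (Polynomial.natDegree_add_le_of_degree_le
      (Polynomial.natDegree_mul_le_of_le (Polynomial.natDegree_mul_le_of_le h2 h3) h4) h5)
  have hP0 : P = 0 := by
    apply Polynomial.eq_zero_of_natDegree_lt_card_of_eval_eq_zero' P s
    · intro t ht
      obtain ⟨i, hi, rfl⟩ := Finset.mem_image.1 ht
      by_cases h1 : ((z ^ i : Fˣ) : F) = 1
      · simp [P, h1]
      · have h2 : ((z ^ i : Fˣ) : F) ^ (r ^ 2 + r + 1) = 1 := by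
          rw [← Units.val_pow_eq_pow_val, ← pow_mul, mul_comm, pow_mul, ← hz, pow_orderOf_eq_one,
            one_pow, Units.val_one]
        have h3 := hcon _ h1 h2
        simp only [P, Polynomial.eval_mul, Polynomial.eval_add, Polynomial.eval_sub,
          Polynomial.eval_pow, Polynomial.eval_X, Polynomial.eval_one]
        rw [h3, mul_zero]
    · rw [hs]
      nlinarith
  have hr0 : r ≠ 0 := by omega
  have : P.eval 0 = -1 := by
    simp [P, hr0]
  rw [hP0] at this
  simp at this

/-- A linear equivalence gives a projectivity. -/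
theorem exists_pgl (e : (Fin 3 → F) ≃ₗ[F] (Fin 3 → F)) :
    ∃ g : PGL(3, F), ∀ P : ℙ F (Fin 3 → F),
      g • P = Projectivization.map e.toLinearMap e.injective P := by
  obtain ⟨G, hG⟩ : ∃ G : GL (Fin 3) F, ∀ v : Fin 3 → F, G • v = e v := by
    refine ⟨Matrix.GeneralLinearGroup.toLin.symm
      ((LinearMap.GeneralLinearGroup.generalLinearEquiv F (Fin 3 → F)).symm e), fun v => ?_⟩
    set G : GL (Fin 3) F := Matrix.GeneralLinearGroup.toLin.symm
      ((LinearMap.GeneralLinearGroup.generalLinearEquiv F (Fin 3 → F)).symm e) with hG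
    have h1 : Matrix.GeneralLinearGroup.toLin G =
        (LinearMap.GeneralLinearGroup.generalLinearEquiv F (Fin 3 → F)).symm e := by
      rw [hG]
      exact MulEquiv.apply_symm_apply _ _
    have h2 : (Matrix.GeneralLinearGroup.toLin G : (Fin 3 → F) →ₗ[F] (Fin 3 → F)) v = e v := by
      rw [h1]
      rfl
    rw [← h2]
    rfl
  refine ⟨Matrix.ProjGenLinGroup.mk G, fun P => ?_⟩
  induction P using Projectivization.ind with
  | h v hv =>
    rw [Projectivization.PGL.mk_smul_mk, Projectivization.map_mk]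
    simp only [hG]
    rfl

end existence

theorem thm_Ex : St_Ex := by
  classical
  intro F _ _ r hr hF
  -- `r` is a power of the characteristic
  obtain ⟨p, hp⟩ := CharP.exists F
  have hpp : p.Prime := (CharP.char_is_prime_or_zero F p).resolve_right (CharP.char_ne_zero_of_finite F p)
  have : Fact p.Prime := ⟨hpp⟩
  have : Fintype F := Fintype.ofFinite F
  obtain ⟨n, hn, hcard⟩ := FiniteField.card F p
  have hcard' : r ^ 3 = p ^ (n : ℕ) := by
    rw [← hF, Nat.card_eq_fintype_card, hcard]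
  obtain ⟨m, -, hm⟩ := (Nat.dvd_prime_pow hpp).1 (Dvd.intro (r ^ 2) (by rw [← hcard']; ring) : r ∣ p ^ (n : ℕ))
  have hadd : ∀ x y : F, (x - y) ^ r = x ^ r - y ^ r := by
    intro x y
    rw [hm]
    exact sub_pow_char_pow x y m
  have hmain : ∃ e : (Fin 3 → F) ≃ₗ[F] (Fin 3 → F),
      Projectivization.map e.toLinearMap e.injective '' blockingSet r F ∩ blockingSet r F = ∅ := by
    rcases Nat.lt_or_ge r 3 with hlt | hr3
    · have hr2 : r = 2 := le_antisymm (by omega) hr
      subst hr2
      obtain ⟨c, hc⟩ : ∃ c : F, c ∉ ({0, 1} : Finset F) := by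
        by_contra hcon
        push Not at hcon
        have h1 : Finset.univ ⊆ ({0, 1} : Finset F) := fun x _ => hcon x
        have h2 := Finset.card_le_card h1
        rw [Finset.card_univ, ← Nat.card_eq_fintype_card, hF] at h2
        have h3 : ({0, 1} : Finset F).card ≤ 2 := Finset.card_le_two
        omega
      rw [Finset.mem_insert, Finset.mem_singleton, not_or] at hc
      exact ⟨swapMap c hc.1, swap_disjoint c hc.1 hc.2⟩
    · obtain ⟨t, ht1, ht, hP⟩ := exists_t (F := F) r hr3 hF
      set m : F := (t ^ (r ^ 2 - r + 1) - 1) / (t ^ r - 1) with hm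
      have hmN : m ^ (r ^ 2 + r + 1) ≠ 1 := norm_m r hr hadd t ht1 ht hP
      have hr0 : r ≠ 0 := by omega
      have htp : t ^ r - 1 ≠ 0 := by
        intro h
        have : (t - 1) ^ r = 0 := by rw [hadd, one_pow, h]
        exact ht1 (sub_eq_zero.1 (pow_eq_zero_iff hr0 |>.1 this))
      have hninj : ¬ Function.Injective (fun y : F => y ^ (r ^ 2 - r + 1) - m * y ^ r) := by
        intro hinj
        apply ht1
        apply hinj
        have : m * (t ^ r - 1) = t ^ (r ^ 2 - r + 1) - 1 := by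
          rw [hm, div_mul_cancel₀ _ htp]
        simp only [one_pow]
        linear_combination -this
      have hnsurj : ¬ Function.Surjective (fun y : F => y ^ (r ^ 2 - r + 1) - m * y ^ r) :=
        fun hs => hninj (Finite.injective_iff_surjective.2 hs)
      rw [Function.Surjective] at hnsurj
      push Not at hnsurj
      obtain ⟨c, hc⟩ := hnsurj
      have hc0 : c ≠ 0 := by
        rintro rfl
        apply hc 0
        simp [hr0]
      exact ⟨gammaMap c m hc0, gamma_disjoint r hr c m hc0 hmN hc⟩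
  obtain ⟨e, he⟩ := hmain
  obtain ⟨g, hg⟩ := exists_pgl e
  refine ⟨g, fun P hP hgP => ?_⟩
  rw [hg] at hgP
  have : Projectivization.map e.toLinearMap e.injective P ∈
      Projectivization.map e.toLinearMap e.injective '' blockingSet r F ∩ blockingSet r F :=
    ⟨⟨P, hP, rfl⟩, hgP⟩
  rw [he] at this
  exact this

end Pool.Agent.DJC
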