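import Pool.Agent.DJC.Asm

/-!
# DJC: the proportion of projectivities which move `B` off itself
-/

set_option autoImplicit false

open scoped LinearAlgebra.Projectivization MatrixGroups
open Finset

namespace Pool.Agent.DJC

/-- From the moments to the proportion. -/
theorem prop_num (r q k b N C D G S1 S2 S3 A Cc TC : ℝ) (hr : 7 ≤ r) (hq : q = r ^ 3)
    (hk : k = r ^ 2 + r + 1) (hb : b = q + k) (hN : N = q ^ 2 + q + 1)
    (hC : C = (q * (q - 1) + 2 * q * k) * (r - 1) + k * (k - 1) * (k - 2)) (hG : 0 < G)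
    (h1 : S1 * N = b ^ 2 * G) (h2 : S2 * (N * (N - 1)) = (b * (b - 1)) ^ 2 * G)
    (h3 : S3 = A + Cc) (h4 : A * (N * (N - 1) * q ^ 2) ≤ (b * (b - 1) * (b - 2)) ^ 2 * G)
    (h5 : Cc * (N * (N - 1) * (q - 1)) ≤ TC ^ 2 * G) (hTC : TC ≤ C) (hTC0 : 0 ≤ TC)
    (hD : 6 * G - 6 * S1 + 3 * S2 - S3 ≤ 6 * D) : (r - 5) / (3 * r) ≤ D / G := by
  have hnum := num_ineq r q k b N C hr hq hk hb hN hC
  have hr0 : 0 < r := by linarith
  have hq1 : 343 ≤ q := by
    rw [hq]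
    have : (7 : ℝ) ^ 3 ≤ r ^ 3 := pow_le_pow_left₀ (by norm_num) hr 3
    norm_num at this
    exact this
  have hN1 : 2 ≤ N := by rw [hN]; nlinarith
  have hTC2 : TC ^ 2 ≤ C ^ 2 := pow_le_pow_left₀ hTC0 hTC 2
  rw [div_le_div_iff₀ (by positivity) hG]
  have hM : 0 < 2 * N * (N - 1) * q ^ 2 * (q - 1) := by
    have : 0 < N - 1 := by linarith
    have : 0 < q - 1 := by linarith
    positivity
  apply le_of_mul_le_mul_left _ hM
  have e1 : S1 * N * (6 * (N - 1) * q ^ 2 * (q - 1) * r) =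
      b ^ 2 * G * (6 * (N - 1) * q ^ 2 * (q - 1) * r) := by rw [h1]
  have e2 : S2 * (N * (N - 1)) * (3 * q ^ 2 * (q - 1) * r) =
      (b * (b - 1)) ^ 2 * G * (3 * q ^ 2 * (q - 1) * r) := by rw [h2]
  have p1 : 0 ≤ (q - 1) * r := by
    have : 0 ≤ q - 1 := by linarith
    positivity
  have p2 : 0 ≤ q ^ 2 * r := by positivity
  have e3 := mul_le_mul_of_nonneg_right h4 p1
  have e4 := mul_le_mul_of_nonneg_right h5 p2
  have e5 : TC ^ 2 * G * (q ^ 2 * r) ≤ C ^ 2 * G * (q ^ 2 * r) := by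
    apply mul_le_mul_of_nonneg_right _ p2
    exact mul_le_mul_of_nonneg_right hTC2 hG.le
  have p3 : 0 ≤ N * (N - 1) * q ^ 2 * (q - 1) * r := by
    have : 0 ≤ N - 1 := by linarith
    have : 0 ≤ q - 1 := by linarith
    positivity
  have e6 := mul_le_mul_of_nonneg_left hD p3
  have e7 := mul_le_mul_of_nonneg_right hnum hG.le
  subst h3
  linarith [e1, e2, e3, e4, e5, e6, e7]

open Classical in
theorem proportion (hTri : St_Tri) (hInv : St_Inv) (hCol : St_Col) (hPair : St_Pair)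
    (hCnt : St_Cnt) (hK : St_K) (hColB : St_ColB) {F : Type} [Field F] [Finite F] (r : ℕ)
    (hr : 7 ≤ r) (hF : Nat.card F = r ^ 3) :
    ((r : ℝ) - 5) / (3 * r) ≤
      (Nat.card {g : PGL(3, F) // ∀ P ∈ blockingSet r F, g • P ∉ blockingSet r F} : ℝ) /
        Nat.card (PGL(3, F)) := by
  have : Fintype F := Fintype.ofFinite F
  have : Fintype (ℙ F (Fin 3 → F)) := Fintype.ofFinite _
  have : Fintype (PGL(3, F)) := Fintype.ofFinite _
  set B : Finset (ℙ F (Fin 3 → F)) := Finset.univ.image (pt : Prm r F → _) with hB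
  have memB : ∀ P, P ∈ B ↔ P ∈ blockingSet r F := by
    intro P
    rw [← range_pt, hB]
    simp
  set X : PGL(3, F) → ℕ := fun g => #{P ∈ B | g • P ∈ B} with hX
  obtain ⟨m1, m2, A, C, m3, m4, m5⟩ := moments hTri hInv hCol hPair hCnt (r ^ 3)
    ((r ^ 3) ^ 2 + r ^ 3 + 1) hF rfl B X (fun _ => rfl)
  have hk := hK F r (by omega) hF
  have cB : #B = r ^ 3 + (r ^ 2 + r + 1) := by
    rw [hB, Finset.card_image_of_injective _ (pt_injective r F), Finset.card_univ,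
      Fintype.card_sum, ← Nat.card_eq_fintype_card, ← Nat.card_eq_fintype_card, hF, hk]
  -- collinear triples
  have cT : #{t ∈ trip B | IsCol t.1 t.2.1 t.2.2} ≤ (r ^ 3 * (r ^ 3 - 1) + 2 * r ^ 3 *
      (r ^ 2 + r + 1)) * (r - 1) + (r ^ 2 + r + 1) * (r ^ 2 + r + 1 - 1) * (r ^ 2 + r + 1 - 2) := by
    refine le_trans ?_ (hColB F r (r ^ 3) (r ^ 2 + r + 1) (by omega) hF rfl rfl)
    have h1 : {t ∈ trip B | IsCol t.1 t.2.1 t.2.2} =
        ({t : Prm r F × Prm r F × Prm r F | IsCol (pt t.1) (pt t.2.1) (pt t.2.2)} :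
          Finset (Prm r F × Prm r F × Prm r F)).image
          (fun t => (pt t.1, pt t.2.1, pt t.2.2)) := by
      ext ⟨P, Q, R⟩
      simp only [mem_filter, mem_trip, mem_image, mem_univ, true_and, Prod.exists, Prod.mk.injEq,
        hB]
      constructor
      · rintro ⟨⟨⟨⟨a, rfl⟩, ⟨b, rfl⟩, ⟨c, rfl⟩⟩, _⟩, h⟩
        exact ⟨a, b, c, h, rfl, rfl, rfl⟩
      · rintro ⟨a, b, c, h, rfl, rfl, rfl⟩
        exact ⟨⟨⟨⟨a, rfl⟩, ⟨b, rfl⟩, ⟨c, rfl⟩⟩, h.1, h.2.1, h.2.2.1⟩, h⟩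
    rw [h1]
    refine Finset.card_image_le.trans (le_of_eq ?_)
    rw [← Set.ncard_coe_finset]
    congr 1
    ext t
    simp
  -- the number of good elements
  set D : ℕ := #{g : PGL(3, F) | X g = 0} with hD
  have cD : Nat.card {g : PGL(3, F) // ∀ P ∈ blockingSet r F, g • P ∉ blockingSet r F} = D := by
    rw [Nat.card_eq_fintype_card, Fintype.card_subtype, hD]
    congr 1
    ext g
    simp only [mem_filter, mem_univ, true_and, hX, Finset.card_eq_zero,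
      Finset.filter_eq_empty_iff, memB]
  have hbon : (∑ g : PGL(3, F), ((6 : ℤ) - 6 * X g + 3 * (X g * (X g - 1)) -
      X g * (X g - 1) * (X g - 2))) ≤ 6 * D := by
    refine (Finset.sum_le_sum (fun g _ => bonferroni_int (X g))).trans (le_of_eq ?_)
    rw [← Finset.sum_filter, Finset.sum_const, hD]
    simp
    ring
  rw [Finset.sum_sub_distrib, Finset.sum_add_distrib, Finset.sum_sub_distrib, Finset.sum_const,
    ← Finset.mul_sum, ← Finset.mul_sum, Finset.card_univ, m3, nsmul_eq_mul] at hbon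
  generalize (∑ g, (X g : ℤ)) = S1 at m1 hbon
  generalize (∑ g, (X g : ℤ) * (X g - 1)) = S2 at m2 hbon
  rw [cD, Nat.card_eq_fintype_card]
  have hG0 : 0 < Fintype.card (PGL(3, F)) := Fintype.card_pos
  generalize Fintype.card (PGL(3, F)) = G at m1 m2 m4 m5 hbon hG0
  generalize #{t ∈ trip B | IsCol t.1 t.2.1 t.2.2} = TC at m5 cT
  rw [cB] at m1 m2 m4
  have cT' : (TC : ℝ) ≤ ((r : ℝ) ^ 3 * ((r : ℝ) ^ 3 - 1) + 2 * (r : ℝ) ^ 3 *
      ((r : ℝ) ^ 2 + r + 1)) * ((r : ℝ) - 1) + ((r : ℝ) ^ 2 + r + 1) * ((r : ℝ) ^ 2 + r + 1 - 1) *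
      ((r : ℝ) ^ 2 + r + 1 - 2) := by
    have h1 : 1 ≤ r ^ 3 := Nat.one_le_pow _ _ (by omega)
    have h2 : 1 ≤ r := by omega
    have h3 : 2 ≤ r ^ 2 + r + 1 := by nlinarith
    have h4 : 1 ≤ r ^ 2 + r + 1 := by omega
    have h5 : (TC : ℝ) ≤ (((r ^ 3 * (r ^ 3 - 1) + 2 * r ^ 3 * (r ^ 2 + r + 1)) * (r - 1) +
      (r ^ 2 + r + 1) * (r ^ 2 + r + 1 - 1) * (r ^ 2 + r + 1 - 2) : ℕ) : ℝ) := by
      exact_mod_cast cT
    rw [Nat.cast_add, Nat.cast_mul, Nat.cast_add, Nat.cast_mul, Nat.cast_sub h1, Nat.cast_sub h2,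
      Nat.cast_mul, Nat.cast_mul, Nat.cast_mul, Nat.cast_mul, Nat.cast_sub h3,
      Nat.cast_sub h4] at h5
    push_cast at h5
    exact h5
  refine prop_num (r : ℝ) ((r : ℝ) ^ 3) ((r : ℝ) ^ 2 + r + 1) ((r : ℝ) ^ 3 + ((r : ℝ) ^ 2 + r + 1))
    (((r : ℝ) ^ 3) ^ 2 + (r : ℝ) ^ 3 + 1) _ D G S1 S2 ((A : ℝ) + C) A C TC (by exact_mod_cast hr)
    rfl rfl rfl rfl rfl (by exact_mod_cast hG0) ?_ ?_ rfl ?_ ?_ cT' (by positivity) ?_
  · exact_mod_cast m1
  · have := congrArg (Int.cast : ℤ → ℝ) m2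
    push_cast at this
    linarith [this]
  · have := (Int.cast_le (R := ℝ)).2 m4
    push_cast at this
    linarith [this]
  · have := (Int.cast_le (R := ℝ)).2 m5
    push_cast at this
    linarith [this]
  · have := (Int.cast_le (R := ℝ)).2 hbon
    push_cast at this
    linarith [this]

end Pool.Agent.DJC
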