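import Pool.Agent.DJC.St

/-!
# DJC Sec : secants of the blocking set
-/

set_option autoImplicit false

open scoped LinearAlgebra.Projectivization MatrixGroups

namespace Pool.Agent.DJC

private theorem Sec_sub (F : Type) [Field F] [Finite F] (r : ℕ) (hF : Nat.card F = r ^ 3)
    (a b : F) : (a - b) ^ r = a ^ r - b ^ r := by
  classical
  obtain ⟨p, hp⟩ := CharP.exists F
  have := Fintype.ofFinite F
  have := hp
  obtain ⟨n, hpp, hcard⟩ := FiniteField.card F p
  have : Fact p.Prime := ⟨hpp⟩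
  rw [Nat.card_eq_fintype_card, hcard] at hF
  have hdvd : r ∣ p ^ (n : ℕ) := by
    rw [hF]
    exact Dvd.intro_left (r ^ 2) (by ring)
  obtain ⟨m, -, hm⟩ := (Nat.dvd_prime_pow hpp).1 hdvd
  rw [hm]
  exact sub_pow_char_pow a b m

private theorem Sec_roots (F : Type) [Field F] (n : ℕ) (hn : 0 < n) (a : F) :
    ({u : F | u ^ n = a}).Finite ∧ Set.ncard {u : F | u ^ n = a} ≤ n := by
  classical
  have h : {u : F | u ^ n = a} = ((Polynomial.nthRootsFinset n a : Finset F) : Set F) := by
    ext u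
    rw [Finset.mem_coe, Polynomial.mem_nthRootsFinset hn]
    rfl
  rw [h]
  refine ⟨Finset.finite_toSet _, ?_⟩
  rw [Set.ncard_coe_finset]
  unfold Polynomial.nthRootsFinset
  exact (Multiset.toFinset_card_le _).trans (Polynomial.card_nthRoots n a)

private theorem Sec_col {r : ℕ} {F : Type} [Field F] (a b c : Prm r F)
    (h : IsCol (pt a) (pt b) (pt c)) :
    a ≠ c ∧ b ≠ c ∧ Matrix.det (Matrix.of ![vec a, vec b, vec c]) = 0 := by
  obtain ⟨-, h2, h3, h4⟩ := h
  refine ⟨fun e => h2 (e ▸ rfl), fun e => h3 (e ▸ rfl), ?_⟩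
  by_contra h5
  exact h4 ((isTri_mk (vec_ne_zero a) (vec_ne_zero b) (vec_ne_zero c)).2 h5)

/-- [K] -/
theorem thm_K : St_K := by
  classical
  intro F _ _ r hr hF
  have := Fintype.ofFinite F
  have hk : 0 < r ^ 2 + r + 1 := by positivity
  obtain ⟨g, hg⟩ := IsCyclic.exists_generator (α := Fˣ)
  have hord : orderOf g = r ^ 3 - 1 := by
    rw [orderOf_eq_card_of_forall_mem_zpowers hg, Nat.card_eq_fintype_card, Fintype.card_units,
      ← Nat.card_eq_fintype_card, hF]
  have hprod : r ^ 3 - 1 = (r - 1) * (r ^ 2 + r + 1) := by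
    obtain ⟨s, rfl⟩ : ∃ s, r = s + 1 := ⟨r - 1, by omega⟩
    rw [Nat.add_sub_cancel]
    have : (s + 1) ^ 3 = s * ((s + 1) ^ 2 + (s + 1) + 1) + 1 := by ring
    omega
  have hpos : 0 < r ^ 3 - 1 := by
    rw [hprod]
    exact Nat.mul_pos (by omega) hk
  have h1 : IsPrimitiveRoot g (r ^ 3 - 1) := hord ▸ IsPrimitiveRoot.orderOf g
  have h2 : IsPrimitiveRoot (g ^ (r - 1)) (r ^ 2 + r + 1) := h1.pow hpos hprod
  have h3 : IsPrimitiveRoot ((g ^ (r - 1) : Fˣ) : F) (r ^ 2 + r + 1) :=
    IsPrimitiveRoot.coe_units_iff.2 h2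
  have h4 := h3.card_nthRootsFinset
  have e : {y : F // y ^ (r ^ 2 + r + 1) = 1} ≃
      {y : F // y ∈ Polynomial.nthRootsFinset (r ^ 2 + r + 1) (1 : F)} :=
    Equiv.subtypeEquivRight fun y => (Polynomial.mem_nthRootsFinset hk (1 : F)).symm
  rw [Nat.card_congr e, Nat.card_eq_fintype_card, Fintype.card_coe, h4]

/-- [AA] -/
theorem thm_AA : St_AA := by
  classical
  intro F _ _ r hr hF x y hxy
  have hd : y - x ≠ 0 := sub_ne_zero.2 hxy.symm
  obtain ⟨hfin, hle⟩ := Sec_roots F (r - 1) (by omega) ((y - x) ^ (r - 1))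
  have hpow : ∀ u : F, u ^ r = u ^ (r - 1) * u := fun u => by
    rw [← pow_succ, Nat.sub_add_cancel (by omega)]
  have hinl : ∀ z : F, IsCol (pt (Sum.inl x : Prm r F)) (pt (Sum.inl y : Prm r F))
      (pt (Sum.inl z : Prm r F)) → z ≠ y ∧ (z - x) ^ (r - 1) = (y - x) ^ (r - 1) := by
    intro z hz
    obtain ⟨h1, h2, h3⟩ := Sec_col _ _ _ hz
    have hzx : z - x ≠ 0 := sub_ne_zero.2 (fun e => h1 (by rw [e]))
    refine ⟨fun e => h2 (by rw [e]), ?_⟩
    rw [Matrix.det_fin_three] at h3
    simp [vec] at h3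
    have e1 := Sec_sub F r hF z x
    have e2 := Sec_sub F r hF y x
    rw [hpow] at e1 e2
    have h4 : (y - x) * (z - x) * ((z - x) ^ (r - 1) - (y - x) ^ (r - 1)) = 0 := by
      have h5 : (y - x) * (z - x) * ((z - x) ^ (r - 1) - (y - x) ^ (r - 1)) =
          (y - x) * ((z - x) ^ (r - 1) * (z - x)) - (z - x) * ((y - x) ^ (r - 1) * (y - x)) := by
        ring
      rw [h5, e1, e2]
      linear_combination h3
    rcases mul_eq_zero.1 h4 with h5 | h5
    · rcases mul_eq_zero.1 h5 with h6 | h6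
      · exact absurd h6 hd
      · exact absurd h6 hzx
    · exact sub_eq_zero.1 h5
  have hinr : ∀ w : {y : F // y ^ (r ^ 2 + r + 1) = 1},
      IsCol (pt (Sum.inl x : Prm r F)) (pt (Sum.inl y : Prm r F)) (pt (Sum.inr w : Prm r F)) →
        w.1 = (y - x) ^ (r - 1) := by
    intro w hw
    obtain ⟨h1, h2, h3⟩ := Sec_col _ _ _ hw
    rw [Matrix.det_fin_three] at h3
    simp [vec] at h3
    have e2 := Sec_sub F r hF y x
    rw [hpow] at e2
    have h4 : (y - x) * (w.1 - (y - x) ^ (r - 1)) = 0 := by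
      have h5 : (y - x) * (w.1 - (y - x) ^ (r - 1)) =
          (y - x) * w.1 - (y - x) ^ (r - 1) * (y - x) := by ring
      rw [h5, e2]
      linear_combination h3
    rcases mul_eq_zero.1 h4 with h5 | h5
    · exact absurd h5 hd
    · exact sub_eq_zero.1 h5
  refine (Set.ncard_le_ncard_of_injOn (fun c : Prm r F => Sum.elim (fun z => z - x)
    (fun _ => y - x) c) ?_ ?_ hfin).trans hle
  · rintro (z | w) hc
    · exact (hinl z hc).2
    · rfl
  · rintro (z | w) hc (z' | w') hc' h
    · have h' : z - x = z' - x := h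
      rw [sub_left_inj] at h'
      rw [h']
    · have h' : z - x = y - x := h
      rw [sub_left_inj] at h'
      exact absurd h' (hinl z hc).1
    · have h' : y - x = z' - x := h
      rw [sub_left_inj] at h'
      exact absurd h'.symm (hinl z' hc').1
    · rw [Subtype.ext ((hinr w hc).trans (hinr w' hc').symm)]

/-- [AI] -/
theorem thm_AI : St_AI := by
  classical
  intro F _ _ r hr hF x y
  obtain ⟨hfin, hle⟩ := Sec_roots F (r - 1) (by omega) y.1
  have hpow : ∀ u : F, u ^ r = u ^ (r - 1) * u := fun u => by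
    rw [← pow_succ, Nat.sub_add_cancel (by omega)]
  have key : ∀ S : Set (Prm r F), (∀ z : F, Sum.inl z ∈ S → z - x ≠ 0 ∧
      z ^ r - y.1 * z + x * y.1 - x ^ r = 0) → (∀ w, Sum.inr w ∉ S) → S.ncard ≤ r - 1 := by
    intro S h1 h2
    refine (Set.ncard_le_ncard_of_injOn (fun c : Prm r F => Sum.elim (fun z => z - x)
      (fun _ => 0) c) ?_ ?_ hfin).trans hle
    · rintro (z | w) hc
      · obtain ⟨h3, h4⟩ := h1 z hc
        show (z - x) ^ (r - 1) = y.1
        have e1 := Sec_sub F r hF z x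
        rw [hpow] at e1
        have h5 : (z - x) * ((z - x) ^ (r - 1) - y.1) = 0 := by
          have h6 : (z - x) * ((z - x) ^ (r - 1) - y.1) =
              (z - x) ^ (r - 1) * (z - x) - y.1 * (z - x) := by ring
          rw [h6, e1]
          linear_combination h4
        rcases mul_eq_zero.1 h5 with h6 | h6
        · exact absurd h6 h3
        · exact sub_eq_zero.1 h6
      · exact absurd hc (h2 w)
    · rintro (z | w) hc (z' | w') hc' h
      · have h' : z - x = z' - x := h
        rw [sub_left_inj] at h'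
        rw [h']
      · exact absurd hc' (h2 w')
      · exact absurd hc (h2 w)
      · exact absurd hc (h2 w)
  constructor
  · apply key
    · intro z hz
      obtain ⟨h1, h2, h3⟩ := Sec_col _ _ _ hz
      refine ⟨sub_ne_zero.2 (fun e => h1 (by rw [e])), ?_⟩
      rw [Matrix.det_fin_three] at h3
      simp [vec] at h3
      linear_combination h3
    · intro w hw
      obtain ⟨h1, h2, h3⟩ := Sec_col _ _ _ hw
      rw [Matrix.det_fin_three] at h3
      simp [vec] at h3
      apply h2
      rw [Subtype.ext (show y.1 = w.1 by linear_combination -h3)]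
  · apply key
    · intro z hz
      obtain ⟨h1, h2, h3⟩ := Sec_col _ _ _ hz
      refine ⟨sub_ne_zero.2 (fun e => h2 (by rw [e])), ?_⟩
      rw [Matrix.det_fin_three] at h3
      simp [vec] at h3
      linear_combination -h3
    · intro w hw
      obtain ⟨h1, h2, h3⟩ := Sec_col _ _ _ hw
      rw [Matrix.det_fin_three] at h3
      simp [vec] at h3
      apply h1
      rw [Subtype.ext (show y.1 = w.1 by linear_combination h3)]

/-- [II] -/
theorem thm_II : St_II := by
  classical
  intro F _ _ r hr hF y y' hyy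
  have hsub : {c : Prm r F | IsCol (pt (Sum.inr y : Prm r F)) (pt (Sum.inr y' : Prm r F)) (pt c)} ⊆
      Sum.inr '' (({y, y'} : Set {y : F // y ^ (r ^ 2 + r + 1) = 1})ᶜ) := by
    rintro (z | w) hc
    · obtain ⟨h1, h2, h3⟩ := Sec_col _ _ _ hc
      rw [Matrix.det_fin_three] at h3
      simp [vec] at h3
      exact absurd (Subtype.ext (show y.1 = y'.1 by linear_combination -h3)) hyy
    · obtain ⟨h1, h2, h3⟩ := Sec_col _ _ _ hc
      refine ⟨w, ?_, rfl⟩
      rintro (h | h)
      · exact h1 (by rw [h])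
      · exact h2 (by rw [Set.mem_singleton_iff.1 h])
  refine (Set.ncard_le_ncard hsub (Set.toFinite _)).trans ?_
  rw [Set.ncard_image_of_injective _ Sum.inr_injective, Set.ncard_compl, thm_K F r hr hF,
    Set.ncard_pair hyy]

end Pool.Agent.DJC
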