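import Pool.Agent.DJC.Defs

/-!
# DJC: statements

Theorem (MP_837a86_co, architect helper12, first part helper56).  Let `r` be a prime power, `F` a
field with `r ^ 3` elements and `B = {(1,x,x^r)} ∪ {(0,1,y) : y^(r²+r+1) = 1}` in `PG(2, F)`.
(i) Some projectivity moves `B` off itself.  (ii) The proportion of the elements `γ` of
`PGL(3, F)` with `γ(B) ∩ B = ∅` is at least `(r - 5) / (3 r)`.

Proof of (ii): with `X = |B ∩ γ⁻¹ B|`, Bonferroni's inequality
`1_{X = 0} ≥ 1 - X + C(X,2) - C(X,3)` and the first three factorial moments of `X`: `PGL(3, F)` is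
transitive on points, on pairs of points, on collinear and on non-collinear triples.
Notation `q = r ^ 3`, `N = q ^ 2 + q + 1`, `k = r ^ 2 + r + 1`.
-/

set_option autoImplicit false

open scoped LinearAlgebra.Projectivization MatrixGroups

namespace Pool.Agent.DJC

/-- [Tri] `PGL(3, F)` is transitive on triangles.
Proof: an independent triple is `(mk u, mk v, mk w)` with `u, v, w` a basis (`rep`), so it is
`g • (mk e_0, mk e_1, mk e_2)` for the invertible matrix `g` with columns `u, v, w`; compose two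
such (`Projectivization.PGL.mk_smul_mk`, `Matrix.ProjGenLinGroup.mk`; a linear equivalence of
`Fin 3 → F` gives an element of `GL (Fin 3) F` by `Matrix.GeneralLinearGroup.toLin`). -/
def St_Tri : Prop := ∀ (F : Type) [Field F] (P Q R P' Q' R' : ℙ F (Fin 3 → F)),
  IsTri P Q R → IsTri P' Q' R' → ∃ g : PGL(3, F), g • P = P' ∧ g • Q = Q' ∧ g • R = R'

/-- [Inv] Projectivities preserve triangles.
Proof: for `g = mk A` and `P = mk u`, .. (`Projectivization.ind`), use `isTri_mk` and
`det (rows A u, A v, A w) = det A * det (rows u, v, w)`, or linear independence of the images. -/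
def St_Inv : Prop := ∀ (F : Type) [Field F] (g : PGL(3, F)) (P Q R : ℙ F (Fin 3 → F)),
  IsTri P Q R → IsTri (g • P) (g • Q) (g • R)

/-- [Col] `PGL(3, F)` is transitive on triples of distinct collinear points.
Proof: if `P, Q, R` are distinct and dependent, then with `u = P.rep`, `v = Q.rep`, `w = R.rep`
one has `w = a u + b v` with `a, b ≠ 0` (`u, v` are independent because `P ≠ Q`; `a ≠ 0` because
`R ≠ Q`, `b ≠ 0` because `R ≠ P`).  Replace `u` by `a u`, `v` by `b v`: `P = mk u`, `Q = mk v`,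
`R = mk (u + v)`.  Choose `z` with `u, v, z` independent (dimension 3); the invertible matrix with
columns `u, v, z` carries `(mk e_0, mk e_1, mk (e_0 + e_1))` to `(P, Q, R)`; compose two such. -/
def St_Col : Prop := ∀ (F : Type) [Field F] (P Q R P' Q' R' : ℙ F (Fin 3 → F)),
  IsCol P Q R → IsCol P' Q' R' → ∃ g : PGL(3, F), g • P = P' ∧ g • Q = Q' ∧ g • R = R'

/-- [Pair] `PGL(3, F)` is transitive on pairs of distinct points.
Proof: `Projectivization.linearEquiv_is_two_pretransitive` (or
`generalLinearGroup_is_two_pretransitive`, or the instance for `Matrix.SpecialLinearGroup`) and the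
map to `PGL(3, F)`. -/
def St_Pair : Prop := ∀ (F : Type) [Field F] (P Q P' Q' : ℙ F (Fin 3 → F)),
  P ≠ Q → P' ≠ Q' → ∃ g : PGL(3, F), g • P = P' ∧ g • Q = Q'

/-- [Cnt] Cardinalities: points, and lower bounds for the numbers of triangles and of collinear
triples.
Proof.  Points: `Projectivization.card_of_finrank`.  Triangles: for each ordered pair `(P, Q)`,
`P ≠ Q` (there are `N (N - 1)`), choose `z` with `P.rep, Q.rep, z` independent; the map
`(a, b) ↦ mk (a • P.rep + b • Q.rep + z)` is injective on `F × F` and gives triangles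
`(P, Q, _)`.  Collinear triples: `c ↦ mk (P.rep + c • Q.rep)`, `c ≠ 0`, is injective and gives
collinear triples. -/
def St_Cnt : Prop := ∀ (F : Type) [Field F] [Finite F] (q N : ℕ), Nat.card F = q →
  N = q ^ 2 + q + 1 →
  Nat.card (ℙ F (Fin 3 → F)) = N ∧
  N * (N - 1) * q ^ 2 ≤ Set.ncard {t : ℙ F (Fin 3 → F) × ℙ F (Fin 3 → F) × ℙ F (Fin 3 → F) |
    IsTri t.1 t.2.1 t.2.2} ∧
  N * (N - 1) * (q - 1) ≤ Set.ncard {t : ℙ F (Fin 3 → F) × ℙ F (Fin 3 → F) × ℙ F (Fin 3 → F) |
    IsCol t.1 t.2.1 t.2.2}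

/-- [K] There are `r ^ 2 + r + 1` elements with `y ^ (r ^ 2 + r + 1) = 1`.
Proof: `Fˣ` is cyclic of order `r ^ 3 - 1 = (r - 1) (r ^ 2 + r + 1)`
(`IsCyclic.card_pow_eq_one_eq_gcd` or the like; an element with `y ^ k = 1` is a unit). -/
def St_K : Prop := ∀ (F : Type) [Field F] [Finite F] (r : ℕ), 2 ≤ r → Nat.card F = r ^ 3 →
  Nat.card {y : F // y ^ (r ^ 2 + r + 1) = 1} = r ^ 2 + r + 1

/-- [AA] A pair of affine points of `B`: at most `r - 1` further points of `B` on its line.
Proof: `isTri_mk`.  `x ↦ x ^ r` is additive (`r` is a power of the characteristic because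
`Nat.card F = r ^ 3`: `Nat.card F = p ^ n`, `r ^ 3 = p ^ n` gives `r = p ^ m`; then
`sub_pow_char_pow`).  For `c = inl z`: the determinant of the rows `(1,x,x^r), (1,y,y^r), (1,z,z^r)` is
`(y - x) (z - x) ^ r - (z - x) (y - x) ^ r`; it vanishes for `z ≠ x` iff
`(z - x) ^ (r - 1) = (y - x) ^ (r - 1)`, and the polynomial `Z ^ (r - 1) - (y - x) ^ (r - 1)` has at
most `r - 1` roots, one of which is `y - x` (i.e. `z = y`, excluded): at most `r - 2` values `z`.
For `c = inr w`: the determinant is `(y - x) w - (y - x) ^ r`, so `w = (y - x) ^ (r - 1)`: at most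
one. -/
def St_AA : Prop := ∀ (F : Type) [Field F] [Finite F] (r : ℕ), 2 ≤ r → Nat.card F = r ^ 3 →
  ∀ x y : F, x ≠ y → Set.ncard {c : Prm r F | IsCol (pt (Sum.inl x : Prm r F)) (pt (Sum.inl y : Prm r F)) (pt c)} ≤ r - 1

/-- [AI] A pair consisting of an affine point and a point at infinity of `B`: at most `r - 1`
further points of `B` on its line, in both orders.
Proof: for `c = inl z` the determinant of `(1,x,x^r), (0,1,y), (1,z,z^r)` is
`(z - x) ^ r - y (z - x)` (additivity as in [AA]), so `(z - x) ^ (r - 1) = y` as `z ≠ x`: at most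
`r - 1` values.  For `c = inr w` it is `w - y`, so `w = y` and the points are not distinct: none. -/
def St_AI : Prop := ∀ (F : Type) [Field F] [Finite F] (r : ℕ), 2 ≤ r → Nat.card F = r ^ 3 →
  ∀ (x : F) (y : {y : F // y ^ (r ^ 2 + r + 1) = 1}),
    Set.ncard {c : Prm r F | IsCol (pt (Sum.inl x : Prm r F)) (pt (Sum.inr y : Prm r F)) (pt c)} ≤ r - 1 ∧
    Set.ncard {c : Prm r F | IsCol (pt (Sum.inr y : Prm r F)) (pt (Sum.inl x : Prm r F)) (pt c)} ≤ r - 1

/-- [II] A pair of points at infinity of `B`: at most `k - 2` further points of `B` on its line.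
Proof: for `c = inl z` the determinant of `(0,1,y), (0,1,y'), (1,z,z^r)` is `y' - y ≠ 0` (up to
sign): none.  For `c = inr w`, `w ≠ y, y'`: at most `k - 2` by [K]. -/
def St_II : Prop := ∀ (F : Type) [Field F] [Finite F] (r : ℕ), 2 ≤ r → Nat.card F = r ^ 3 →
  ∀ y y' : {y : F // y ^ (r ^ 2 + r + 1) = 1}, y ≠ y' →
    Set.ncard {c : Prm r F | IsCol (pt (Sum.inr y : Prm r F)) (pt (Sum.inr y' : Prm r F)) (pt c)} ≤
      r ^ 2 + r + 1 - 2

/-- [ColB] The number of collinear triples of distinct points of `B`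
(uses [K], [AA], [AI], [II]).
Proof: sum over the ordered pairs `(a, b)`, `a ≠ b`, of parameters the bounds of [AA], [AI], [II]:
`q (q - 1)` pairs of affine points, `2 q k` mixed pairs, `k (k - 1)` pairs at infinity (`q = r ^ 3`,
`k = r ^ 2 + r + 1`; `a ≠ b` is forced by `IsCol` as `pt a ≠ pt b`). -/
def St_ColB : Prop := ∀ (F : Type) [Field F] [Finite F] (r q k : ℕ), 2 ≤ r → Nat.card F = q →
  q = r ^ 3 → k = r ^ 2 + r + 1 →
  Set.ncard {t : Prm r F × Prm r F × Prm r F | IsCol (pt t.1) (pt t.2.1) (pt t.2.2)} ≤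
    (q * (q - 1) + 2 * q * k) * (r - 1) + k * (k - 1) * (k - 2)

/-- [Ex] Some projectivity moves `B` off itself.
Proof: as in `Pool/Agent/Results/MP_837a86_co/DisjointCopies.lean` (helper56) with `p` replaced by
the prime power `r` (`x ↦ x ^ r` additive); `r = 2`: `swapMap`. -/
def St_Ex : Prop := ∀ (F : Type) [Field F] [Finite F] (r : ℕ), 2 ≤ r → Nat.card F = r ^ 3 →
  ∃ g : PGL(3, F), ∀ P ∈ blockingSet r F, g • P ∉ blockingSet r F

end Pool.Agent.DJC
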