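import Pool.Agent.DJC.St

/-!
# DJC: transitivity of `PGL(3, F)`
-/

set_option autoImplicit false

open scoped LinearAlgebra.Projectivization MatrixGroups

namespace Pool.Agent.DJC

private theorem Tra_base {F : Type} [Field F] (u v w : Fin 3 → F)
    (h : Matrix.det (Matrix.of ![u, v, w]) ≠ 0) :
    ∃ g : GL (Fin 3) F, g • (Pi.single 0 1 : Fin 3 → F) = u ∧
      g • (Pi.single 1 1 : Fin 3 → F) = v ∧ g • (Pi.single 2 1 : Fin 3 → F) = w := by
  refine ⟨Matrix.GeneralLinearGroup.mkOfDetNeZero (Matrix.of ![u, v, w]).transpose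
    (by rw [Matrix.det_transpose]; exact h), ?_, ?_, ?_⟩
  · change (Matrix.of ![u, v, w]).transpose.mulVec (Pi.single 0 1) = u
    rw [Matrix.mulVec_single_one]
    rfl
  · change (Matrix.of ![u, v, w]).transpose.mulVec (Pi.single 1 1) = v
    rw [Matrix.mulVec_single_one]
    rfl
  · change (Matrix.of ![u, v, w]).transpose.mulVec (Pi.single 2 1) = w
    rw [Matrix.mulVec_single_one]
    rfl

private theorem Tra_two {F : Type} [Field F] (u v w u' v' w' : Fin 3 → F)
    (h : Matrix.det (Matrix.of ![u, v, w]) ≠ 0) (h' : Matrix.det (Matrix.of ![u', v', w']) ≠ 0) :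
    ∃ g : GL (Fin 3) F, g • u = u' ∧ g • v = v' ∧ g • w = w' := by
  obtain ⟨g1, a1, a2, a3⟩ := Tra_base u v w h
  obtain ⟨g2, b1, b2, b3⟩ := Tra_base u' v' w' h'
  refine ⟨g2 * g1⁻¹, ?_, ?_, ?_⟩
  · rw [mul_smul, ← a1, inv_smul_smul, b1]
  · rw [mul_smul, ← a2, inv_smul_smul, b2]
  · rw [mul_smul, ← a3, inv_smul_smul, b3]

private theorem Tra_li {F : Type} [Field F] (u v w : Fin 3 → F) :
    LinearIndependent F ![u, v, w] ↔ Matrix.det (Matrix.of ![u, v, w]) ≠ 0 := by
  have h := Matrix.linearIndependent_rows_iff_isUnit (A := Matrix.of ![u, v, w])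
  rw [Matrix.isUnit_iff_isUnit_det, isUnit_iff_ne_zero] at h
  exact h

private theorem Tra_rot {F : Type} [Field F] (u v w : Fin 3 → F) :
    Matrix.det (Matrix.of ![w, u, v]) = Matrix.det (Matrix.of ![u, v, w]) := by
  rw [Matrix.det_fin_three, Matrix.det_fin_three]
  simp only [Matrix.of_apply, Matrix.cons_val_zero, Matrix.cons_val_one, Matrix.cons_val]
  ring

private theorem Tra_pair {F : Type} [Field F] {u v : Fin 3 → F} (hu : u ≠ 0) (hv : v ≠ 0)
    (h : Projectivization.mk F u hu ≠ Projectivization.mk F v hv) :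
    LinearIndependent F ![u, v] := by
  rw [LinearIndependent.pair_iff' hu]
  intro a ha
  apply h
  symm
  rw [Projectivization.mk_eq_mk_iff']
  exact ⟨a, ha⟩

private theorem Tra_third {F : Type} [Field F] {u v : Fin 3 → F}
    (h : LinearIndependent F ![u, v]) : ∃ z, Matrix.det (Matrix.of ![u, v, z]) ≠ 0 := by
  obtain ⟨z, hz⟩ := exists_linearIndependent_cons_of_lt_finrank h
    (by rw [Module.finrank_fintype_fun_eq_card, Fintype.card_fin]; norm_num)
  refine ⟨z, ?_⟩
  rw [← Tra_rot]
  exact (Tra_li z u v).1 hz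

private theorem Tra_col {F : Type} [Field F] (P Q R : ℙ F (Fin 3 → F)) (h : IsCol P Q R) :
    ∃ (u v z : Fin 3 → F) (hu : u ≠ 0) (hv : v ≠ 0) (hw : u + v ≠ 0),
      P = Projectivization.mk F u hu ∧ Q = Projectivization.mk F v hv ∧
      R = Projectivization.mk F (u + v) hw ∧ Matrix.det (Matrix.of ![u, v, z]) ≠ 0 := by
  obtain ⟨hPQ, hPR, hQR, hI⟩ := h
  induction P using Projectivization.ind with | _ u hu =>
  induction Q using Projectivization.ind with | _ v hv =>
  induction R using Projectivization.ind with | _ w hw =>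
  have hdet : Matrix.det (Matrix.of ![u, v, w]) = 0 := by
    by_contra hne
    exact hI ((isTri_mk hu hv hw).2 hne)
  have hli := Tra_pair hu hv hPQ
  have hnot : ¬ LinearIndependent F (Fin.cons w ![u, v] : Fin 3 → (Fin 3 → F)) := by
    intro h1
    exact ((Tra_li w u v).1 h1) (by rw [Tra_rot]; exact hdet)
  rw [linearIndependent_finCons] at hnot
  have hmem : w ∈ Submodule.span F (Set.range ![u, v]) := by
    by_contra h1
    exact hnot ⟨hli, h1⟩
  have hr : Set.range ![u, v] = {u, v} := by
    rw [Matrix.range_cons, Matrix.range_cons, Matrix.range_empty, Set.union_empty]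
    rfl
  rw [hr, Submodule.mem_span_pair] at hmem
  obtain ⟨a, b, hab⟩ := hmem
  have ha : a ≠ 0 := by
    intro h0
    rw [h0, zero_smul, zero_add] at hab
    apply hQR
    symm
    rw [Projectivization.mk_eq_mk_iff']
    exact ⟨b, hab⟩
  have hb : b ≠ 0 := by
    intro h0
    rw [h0, zero_smul, add_zero] at hab
    apply hPR
    symm
    rw [Projectivization.mk_eq_mk_iff']
    exact ⟨a, hab⟩
  obtain ⟨z, hz⟩ := Tra_third hli
  refine ⟨a • u, b • v, z, smul_ne_zero ha hu, smul_ne_zero hb hv, by rw [hab]; exact hw,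
    ?_, ?_, ?_, ?_⟩
  · rw [Projectivization.mk_eq_mk_iff']
    exact ⟨a⁻¹, inv_smul_smul₀ ha u⟩
  · rw [Projectivization.mk_eq_mk_iff']
    exact ⟨b⁻¹, inv_smul_smul₀ hb v⟩
  · rw [Projectivization.mk_eq_mk_iff']
    exact ⟨1, by rw [one_smul, hab]⟩
  · have hd : Matrix.det (Matrix.of ![a • u, b • v, z]) =
        a * b * Matrix.det (Matrix.of ![u, v, z]) := by
      rw [Matrix.det_fin_three, Matrix.det_fin_three]
      simp only [Matrix.of_apply, Matrix.cons_val_zero, Matrix.cons_val_one, Matrix.cons_val,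
        Pi.smul_apply, smul_eq_mul]
      ring
    rw [hd]
    exact mul_ne_zero (mul_ne_zero ha hb) hz

/-- [Tri] `PGL(3, F)` is transitive on triangles. -/
theorem thm_Tri : St_Tri := by
  intro F _ P Q R P' Q' R' h h'
  induction P using Projectivization.ind with | _ u hu =>
  induction Q using Projectivization.ind with | _ v hv =>
  induction R using Projectivization.ind with | _ w hw =>
  induction P' using Projectivization.ind with | _ u' hu' =>
  induction Q' using Projectivization.ind with | _ v' hv' =>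
  induction R' using Projectivization.ind with | _ w' hw' =>
  rw [isTri_mk] at h h'
  obtain ⟨g, h1, h2, h3⟩ := Tra_two u v w u' v' w' h h'
  refine ⟨Matrix.ProjGenLinGroup.mk g, ?_, ?_, ?_⟩
  · rw [Projectivization.PGL.mk_smul_mk]
    simp only [h1]
  · rw [Projectivization.PGL.mk_smul_mk]
    simp only [h2]
  · rw [Projectivization.PGL.mk_smul_mk]
    simp only [h3]

/-- [Inv] Projectivities preserve triangles. -/
theorem thm_Inv : St_Inv := by
  intro F _ g P Q R h
  obtain ⟨A, rfl⟩ := Matrix.ProjGenLinGroup.mk_surjective g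
  induction P using Projectivization.ind with | _ u hu =>
  induction Q using Projectivization.ind with | _ v hv =>
  induction R using Projectivization.ind with | _ w hw =>
  rw [isTri_mk] at h
  rw [Projectivization.PGL.mk_smul_mk, Projectivization.PGL.mk_smul_mk,
    Projectivization.PGL.mk_smul_mk, isTri_mk]
  have hm : Matrix.of ![A • u, A • v, A • w] =
      Matrix.of ![u, v, w] * (A : Matrix (Fin 3) (Fin 3) F).transpose := by
    ext i j
    rw [Matrix.mul_apply]
    fin_cases i
    · change ((A : Matrix (Fin 3) (Fin 3) F).mulVec u) j = _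
      rw [Matrix.mulVec, dotProduct]
      exact Finset.sum_congr rfl fun k _ => mul_comm _ _
    · change ((A : Matrix (Fin 3) (Fin 3) F).mulVec v) j = _
      rw [Matrix.mulVec, dotProduct]
      exact Finset.sum_congr rfl fun k _ => mul_comm _ _
    · change ((A : Matrix (Fin 3) (Fin 3) F).mulVec w) j = _
      rw [Matrix.mulVec, dotProduct]
      exact Finset.sum_congr rfl fun k _ => mul_comm _ _
  rw [hm, Matrix.det_mul, Matrix.det_transpose]
  have hA : (A : Matrix (Fin 3) (Fin 3) F).det ≠ 0 :=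
    ((Matrix.isUnit_iff_isUnit_det _).1 A.isUnit).ne_zero
  exact mul_ne_zero h hA

/-- [Col] `PGL(3, F)` is transitive on triples of distinct collinear points. -/
theorem thm_Col : St_Col := by
  intro F _ P Q R P' Q' R' h h'
  obtain ⟨u, v, z, hu, hv, hw, rfl, rfl, rfl, hz⟩ := Tra_col P Q R h
  obtain ⟨u', v', z', hu', hv', hw', rfl, rfl, rfl, hz'⟩ := Tra_col P' Q' R' h'
  obtain ⟨g, h1, h2, h3⟩ := Tra_two u v z u' v' z' hz hz'
  refine ⟨Matrix.ProjGenLinGroup.mk g, ?_, ?_, ?_⟩
  · rw [Projectivization.PGL.mk_smul_mk]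
    simp only [h1]
  · rw [Projectivization.PGL.mk_smul_mk]
    simp only [h2]
  · rw [Projectivization.PGL.mk_smul_mk]
    simp only [smul_add, h1, h2]

/-- [Pair] `PGL(3, F)` is transitive on pairs of distinct points. -/
theorem thm_Pair : St_Pair := by
  intro F _ P Q P' Q' h h'
  induction P using Projectivization.ind with | _ u hu =>
  induction Q using Projectivization.ind with | _ v hv =>
  induction P' using Projectivization.ind with | _ u' hu' =>
  induction Q' using Projectivization.ind with | _ v' hv' =>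
  obtain ⟨z, hz⟩ := Tra_third (Tra_pair hu hv h)
  obtain ⟨z', hz'⟩ := Tra_third (Tra_pair hu' hv' h')
  obtain ⟨g, h1, h2, h3⟩ := Tra_two u v z u' v' z' hz hz'
  refine ⟨Matrix.ProjGenLinGroup.mk g, ?_, ?_⟩
  · rw [Projectivization.PGL.mk_smul_mk]
    simp only [h1]
  · rw [Projectivization.PGL.mk_smul_mk]
    simp only [h2]

end Pool.Agent.DJC
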